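import Pool.Agent.helper67.GrassHyp.Exist3

/-!
# Existence in the case `m = 1`
-/

set_option autoImplicit false

open Matrix Set
open scoped Matrix.Norms.Elementwise ContDiff

namespace Pool.Agent.GrassHyp67

section Param

variable {ε c s r β : ℝ}

theorem exist_sphere (hε : ε * ε = 1) (hc : 0 < c) (hsr : ε * s ^ 2 + r ^ 2 = 1) (hs : s ≠ 0)
    (hr : r ≠ 0) (hβ : 2 * c * (β * s * r) ^ 2 = 1) : HasNullityHypersurface ε c 1 := by
  have h : IsHypersurface ε c 1 Dom (Ffun ε s r) (Nfun ε s r β) :=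
    isHypersurface hε hsr hs hr hβ
  set F := Ffun ε s r with hF
  set N := Nfun ε s r β with hN
  -- Levi-Civita connection and shape operator
  obtain ⟨B, hB⟩ := exists_metricC ε c 1
  have hind : ind B F = induced ε c F := by
    funext x u v
    exact hB _ _
  have hBs : ∀ a b : Mat 1, B a b = B b a := fun a b => by rw [hB, hB, metric_comm]
  have hnd : ∀ x ∈ Dom, ∀ u, (∀ v, ind B F x u v = 0) → u = 0 := by
    intro x hx u hu
    have h1 : metric ε c (fderiv ℝ F x u) (fderiv ℝ F x u) = 0 := (hB _ _).symm.trans (hu u)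
    have h2 := metric_self_eq_zero hε hc (h.mem x hx) (tangent_fst hε h hx u) h1
    exact h.immersion' x hx (h2.trans (map_zero _).symm)
  obtain ⟨⟨Γ, hΓ'⟩, hA⟩ := exists_leviCivita h.isOpen h.smooth' hBs hnd
  have hΓ : IsLeviCivita Dom (induced ε c F) Γ := by rw [← hind]; exact hΓ'
  have hA' : ∀ x : Coord 1, ∃ A : Coord 1 →ₗ[ℝ] Coord 1, x ∈ Dom → ∀ u v,
      induced ε c F x (A u) v = -metric ε c (fderiv ℝ N x u) (fderiv ℝ F x v) := by
    intro x
    by_cases hx : x ∈ Dom
    · obtain ⟨A, hA⟩ := hA x hx (LinearMap.mk₂ ℝ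
        (fun u v => -metric ε c (fderiv ℝ N x u) (fderiv ℝ F x v))
        (fun u v w => by rw [map_add, metric_add_left]; ring)
        (fun a u v => by rw [map_smul, metric_smul_left, smul_neg])
        (fun u v w => by rw [map_add, metric_add_right]; ring)
        (fun a u v => by rw [map_smul, metric_smul_right, smul_neg]))
      refine ⟨A, fun _ u v => ?_⟩
      rw [← hind]
      exact hA u v
    · exact ⟨0, fun hx' => absurd hx' hx⟩
  choose A hA using hA'
  -- the structure vector field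
  have hξ' : ∀ x : Coord 1, ∃ ξ : Coord 1, x ∈ Dom → fderiv ℝ F x ξ = -cplx (F x) (N x) := by
    intro x
    by_cases hx : x ∈ Dom
    · have hg := gfun_form (ε := ε) (s := s) (r := r) hε hsr hx
      have hP := Ffun_g (s := s) (r := r) hε hsr hx
      have hNx : N x = lift ε (gfun ε s r x) (nblk ε s r β) := Nfun_eq hε hsr hx
      have h1 : -cplx (F x) (N x) = lift ε (gfun ε s r x) (-(Complex.I • nblk ε s r β)) := by
        rw [hNx, cplx_lift hε hg hP, lift_neg']
      have h2 := lift_tangent hε hg hP (-(Complex.I • nblk ε s r β))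
      have h3 : metric ε c (lift ε (gfun ε s r x) (-(Complex.I • nblk ε s r β))) (N x) = 0 := by
        rw [hNx, metric_lift hε h2.1, blk_lift hε hg, ipb]
        simp [nblk, Matrix.trace, Matrix.mul_apply, Fin.sum_univ_two, conjTranspose_apply]
      obtain ⟨v, hv⟩ := exists_fderiv_eq hε le_rfl h hx h2 h3
      exact ⟨v, fun _ => by rw [hv, h1]⟩
    · exact ⟨0, fun hx' => absurd hx' hx⟩
  choose ξ hξ using hξ'
  refine ⟨Dom, F, N, Γ, A, Ufun ε s r, 0, fun _ => ε / (2 * c),
    fun _ => β * (r ^ 2 - ε * s ^ 2), fun _ => 0, ξ, h, hΓ, fun x hx => hA x hx,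
    fun j => contDiffOn_Ufun j, fun x hx => isFrame_Ufun hε hsr hx, contDiffOn_const,
    contDiffOn_const, contDiffOn_const, fun x hx => hξ x hx, ?_⟩
  intro x hx u v
  set g := gfun ε s r x with hgd
  have hg : gᴴ * form ε 1 * g = form ε 1 := gfun_form (ε := ε) (s := s) (r := r) hε hsr hx
  have hP : F x * g = g * base 1 := Ffun_g (s := s) (r := r) hε hsr hx
  have hNx : N x = lift ε g (nblk ε s r β) := Nfun_eq hε hsr hx
  set n := nblk ε s r β with hn
  set w : Blk 1 := -(Complex.I • n) with hw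
  have hξx : fderiv ℝ F x (ξ x) = lift ε g w := by
    rw [hξ x hx, hNx, cplx_lift hε hg hP, hw, lift_neg']
  -- blocks of the tangent vectors
  have hblk : ∀ z, fderiv ℝ F x z = lift ε g (blk ε g (fderiv ℝ F x z)) := fun z =>
    (lift_blk hε hg hP (tangent_fst hε h hx z)).symm
  have hre : ∀ z, (blk ε g (fderiv ℝ F x z) 0 1).re = 0 := by
    intro z
    have h1 := h.orthogonal_normal' x hx z
    rw [hNx, metric_lift hε (tangent_fst hε h hx z).1, ipb, hn, nblk] at h1
    have hε0 : ε ≠ 0 := fun h0 => by rw [h0] at hε; norm_num at hε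
    have hβ0 : β ≠ 0 := fun h0 => by rw [h0] at hβ; norm_num at hβ
    simp [Matrix.trace, Matrix.mul_apply, Fin.sum_univ_two, conjTranspose_apply] at h1
    rcases h1 with h1 | h1
    · exact absurd h1 hc.ne'
    · rcases h1 with h1 | ((h1 | h1) | h1) | h1
      · exact h1
      · exact absurd h1 hβ0
      · exact absurd h1 hε0
      · exact absurd h1 hs
      · exact absurd h1 hr
  -- the second fundamental form
  have hA2 : ∀ a z, metric ε c (fderiv ℝ F x (A x a)) (fderiv ℝ F x z) = hform ε c F N x a z := by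
    intro a z
    have h1 := hA x hx a z
    have h2 := weingarten h hx a z
    rw [metric_comm] at h2
    rw [hform]
    have h3 : metric ε c (fderiv ℝ F x (A x a)) (fderiv ℝ F x z) =
      -metric ε c (fderiv ℝ N x a) (fderiv ℝ F x z) := h1
    rw [h3]
    linarith [metric_comm ε c (N x) (snd F x a z),
      metric_comm ε c (fderiv ℝ F x z) (fderiv ℝ N x a)]
  have hform_xi : ∀ z, hform ε c F N x (ξ x) z =
      β * (r ^ 2 - ε * s ^ 2) * ipb c (blk ε g (fderiv ℝ F x z)) w := by
    intro z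
    rw [hform_eq hε h hx g (ξ x) z _ (hblk z),
      blk_fderiv_normal hε hsr hx (ξ x) w hξx]
    have h1 : β • (!![(ε : ℂ) * s ^ 2] * w - w * !![1, 0; 0, (r : ℂ) ^ 2]) =
        (β * (ε * s ^ 2 - r ^ 2)) • w := by
      ext i j
      fin_cases i
      fin_cases j
      · simp [hw, hn, nblk]
      · simp [hw, hn, nblk]
        ring
    rw [h1, ipb_smul_left, ipb_comm w]
    ring
  have hN1 : N x = lift ε g n := hNx
  have heta : ∀ z, etaForm ε c (N x) (Ufun ε s r 0 x) (fderiv ℝ F x z) =
      ipb c (blk ε g (fderiv ℝ F x z)) w := by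
    intro z
    have h1 : n * uu 0 = Complex.I • n := by
      ext i j
      fin_cases i
      fin_cases j
      · simp [hn, nblk, uu]
      · simp [hn, nblk, uu, mul_comm]
    conv_lhs => rw [hblk z, hN1]
    rw [etaForm_lift hε hg hP (isQuat_Ufun hε hsr hx 0), ublk_Ufun hε hsr hx, h1, hw]
    have h2 := ipb_smul_right (c := c) (-1) (blk ε g (fderiv ℝ F x z)) (Complex.I • n)
    rw [neg_one_smul] at h2
    linarith
  set κ : ℝ := ε / (2 * c) with hκ
  set μ : ℝ := β * (r ^ 2 - ε * s ^ 2) with hμ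
  set p := ipb c (blk ε g (fderiv ℝ F x u)) w with hp
  set q := ipb c (blk ε g (fderiv ℝ F x v)) w with hq
  change fderiv ℝ F x (riemann Γ x u v (ξ x)) =
      etaForm ε c (N x) (Ufun ε s r 0 x) (fderiv ℝ F x v) •
          (κ • fderiv ℝ F x u + μ • fderiv ℝ F x (A x u) +
            (0 : ℝ) • phi ε c (N x) (Ufun ε s r 0 x) (fderiv ℝ F x (A x u))) -
        etaForm ε c (N x) (Ufun ε s r 0 x) (fderiv ℝ F x u) •
          (κ • fderiv ℝ F x v + μ • fderiv ℝ F x (A x v) +
            (0 : ℝ) • phi ε c (N x) (Ufun ε s r 0 x) (fderiv ℝ F x (A x v)))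
  rw [heta, heta, ← hp, ← hq]
  simp only [zero_smul, add_zero]
  set D : Coord 1 := riemann Γ x u v (ξ x) - (q • (κ • u + μ • A x u) - p • (κ • v + μ • A x v))
    with hD
  have hDz : ∀ z, metric ε c (fderiv ℝ F x D) (fderiv ℝ F x z) = 0 := by
    intro z
    have e1 : fderiv ℝ F x D = fderiv ℝ F x (riemann Γ x u v (ξ x)) -
        (q • (κ • fderiv ℝ F x u + μ • fderiv ℝ F x (A x u)) -
          p • (κ • fderiv ℝ F x v + μ • fderiv ℝ F x (A x v))) := by
      simp only [hD, map_sub, map_add, map_smul]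
    have e2 := gauss_eq hε hc le_rfl h hΓ hx u v (ξ x) z
    rw [e1, metric_sub_left, metric_sub_left, metric_smul_left, metric_smul_left,
      metric_add_left, metric_add_left, metric_smul_left, metric_smul_left, metric_smul_left,
      metric_smul_left, hA2, hA2, e2, hform_symm h hx v (ξ x), hform_symm h hx u (ξ x),
      hform_xi, hform_xi, ← hp, ← hq]
    have e3 : metric ε c
        (fderiv ℝ F x u * fderiv ℝ F x v - fderiv ℝ F x v * fderiv ℝ F x u)
        (fderiv ℝ F x (ξ x) * fderiv ℝ F x z - fderiv ℝ F x z * fderiv ℝ F x (ξ x)) =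
        κ * (q * ipb c (blk ε g (fderiv ℝ F x u)) (blk ε g (fderiv ℝ F x z)) -
          p * ipb c (blk ε g (fderiv ℝ F x v)) (blk ε g (fderiv ℝ F x z))) := by
      rw [hξx]
      conv_lhs => rw [hblk u, hblk v, hblk z]
      rw [metric_comm_lift hε hg,
        curv_identity hc.ne' _ _ _ (hre u) (hre v) (hre z) (β * ε * s * r) w
          (by simp [hw, hn, nblk]) (by simp [hw, hn, nblk])]
    have e4 : ∀ a, metric ε c (fderiv ℝ F x a) (fderiv ℝ F x z) =
        ipb c (blk ε g (fderiv ℝ F x a)) (blk ε g (fderiv ℝ F x z)) := by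
      intro a
      conv_lhs => rw [hblk z]
      rw [metric_lift hε (tangent_fst hε h hx a).1]
    rw [e3, e4, e4]
    simp only [smul_eq_mul]
    ring
  have hD0 : fderiv ℝ F x D = 0 :=
    metric_self_eq_zero hε hc (h.mem x hx) (tangent_fst hε h hx D) (hDz D)
  have e1 : fderiv ℝ F x D = fderiv ℝ F x (riemann Γ x u v (ξ x)) -
      (q • (κ • fderiv ℝ F x u + μ • fderiv ℝ F x (A x u)) -
        p • (κ • fderiv ℝ F x v + μ • fderiv ℝ F x (A x v))) := by
    simp only [hD, map_sub, map_add, map_smul]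
  exact sub_eq_zero.1 (e1.symm.trans hD0)

/-- **Existence for `m = 1`.** -/
theorem exist_one (hε : ε = 1 ∨ ε = -1) (hc : 0 < c) : HasNullityHypersurface ε c 1 := by
  have key : ∀ s r : ℝ, 0 < s → 0 < r → ε * s ^ 2 + r ^ 2 = 1 → HasNullityHypersurface ε c 1 := by
    intro s r hs hr hsr
    have hε2 : ε * ε = 1 := by rcases hε with h | h <;> rw [h] <;> norm_num
    refine exist_sphere (β := 1 / (Real.sqrt (2 * c) * s * r)) hε2 hc hsr hs.ne' hr.ne' ?_
    have h1 : Real.sqrt (2 * c) ^ 2 = 2 * c := Real.sq_sqrt (by positivity)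
    have h2 : 0 < Real.sqrt (2 * c) := Real.sqrt_pos.2 (by positivity)
    have h3 : 1 / (Real.sqrt (2 * c) * s * r) * s * r = 1 / Real.sqrt (2 * c) := by
      field_simp
    rw [h3, div_pow, h1]
    field_simp
  rcases hε with h | h
  · exact key (3 / 5) (4 / 5) (by norm_num) (by norm_num) (by rw [h]; norm_num)
  · exact key (3 / 4) (5 / 4) (by norm_num) (by norm_num) (by rw [h]; norm_num)

end Param

end Pool.Agent.GrassHyp67
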