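import Pool.Agent.helper67.GrassHyp.Gauss

/-!
# Derivatives along maps into the symmetric space
-/

set_option autoImplicit false

open Matrix Set
open scoped Matrix.Norms.Elementwise ContDiff

namespace Pool.Agent.GrassHyp67

section Generic

variable {V W Z : Type*} [NormedAddCommGroup V] [NormedSpace ℝ V] [FiniteDimensional ℝ V]
  [NormedAddCommGroup W] [NormedSpace ℝ W] [FiniteDimensional ℝ W]
  [NormedAddCommGroup Z] [NormedSpace ℝ Z] [FiniteDimensional ℝ Z]

theorem exists_clm (f : V → W) (h1 : ∀ x y, f (x + y) = f x + f y)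
    (h2 : ∀ (a : ℝ) x, f (a • x) = a • f x) : ∃ B : V →L[ℝ] W, ∀ x, B x = f x :=
  ⟨LinearMap.toContinuousLinearMap { toFun := f, map_add' := h1, map_smul' := h2 }, fun _ => rfl⟩

theorem exists_clm₂ (f : V → W → Z) (h1 : ∀ x y z, f (x + y) z = f x z + f y z)
    (h2 : ∀ (a : ℝ) x y, f (a • x) y = a • f x y) (h3 : ∀ x y z, f x (y + z) = f x y + f x z)
    (h4 : ∀ (a : ℝ) x y, f x (a • y) = a • f x y) :
    ∃ B : V →L[ℝ] W →L[ℝ] Z, ∀ x y, B x y = f x y :=
  ⟨LinearMap.toContinuousLinearMap
    ((LinearMap.toContinuousLinearMap (𝕜 := ℝ) (E := W) (F' := Z)).toLinearMap ∘ₗ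
      LinearMap.mk₂ ℝ f h1 h2 h3 h4), fun _ _ => rfl⟩

variable {E : Type*} [NormedAddCommGroup E] [NormedSpace ℝ E] {a : E → V} {b : E → W} {x : E}

theorem fderiv_lin (f : V → W) (h1 : ∀ x y, f (x + y) = f x + f y)
    (h2 : ∀ (a : ℝ) x, f (a • x) = a • f x) (ha : DifferentiableAt ℝ a x) (u : E) :
    fderiv ℝ (fun y => f (a y)) x u = f (fderiv ℝ a x u) := by
  obtain ⟨B, hB⟩ := exists_clm f h1 h2
  have h := (B.hasFDerivAt.comp x ha.hasFDerivAt).fderiv
  have h2 : (fun y => f (a y)) = fun y => B (a y) := by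
    funext y; rw [hB]
  have h3 : fderiv ℝ (fun y => B (a y)) x = _ := h
  rw [h2, h3]
  exact hB _

theorem fderiv_bil (f : V → W → Z) (h1 : ∀ x y z, f (x + y) z = f x z + f y z)
    (h2 : ∀ (a : ℝ) x y, f (a • x) y = a • f x y) (h3 : ∀ x y z, f x (y + z) = f x y + f x z)
    (h4 : ∀ (a : ℝ) x y, f x (a • y) = a • f x y)
    (ha : DifferentiableAt ℝ a x) (hb : DifferentiableAt ℝ b x) :
    DifferentiableAt ℝ (fun y => f (a y) (b y)) x ∧
    ∀ u, fderiv ℝ (fun y => f (a y) (b y)) x u =
      f (fderiv ℝ a x u) (b x) + f (a x) (fderiv ℝ b x u) := by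
  obtain ⟨B, hB⟩ := exists_clm₂ f h1 h2 h3 h4
  have h := (B.hasFDerivAt.comp x ha.hasFDerivAt).clm_apply hb.hasFDerivAt
  have h2 : (fun y => f (a y) (b y)) = fun y => B (a y) (b y) := by
    funext y; rw [hB]
  rw [h2]
  have h3 : HasFDerivAt (fun y => B (a y) (b y)) _ x := h
  refine ⟨h3.differentiableAt, fun u => ?_⟩
  rw [h3.fderiv, ← hB, ← hB]
  simp
  abel

theorem fderiv_congr_on {Ω : Set E} (hΩ : IsOpen Ω) {f g : E → V} (h : ∀ y ∈ Ω, f y = g y)
    (hx : x ∈ Ω) (u : E) : fderiv ℝ f x u = fderiv ℝ g x u := by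
  rw [Filter.EventuallyEq.fderiv_eq (Filter.eventually_of_mem (hΩ.mem_nhds hx) h)]

end Generic

section Bilinear

variable {m : ℕ}

theorem metric_comm (ε c : ℝ) (X Y : Mat m) : metric ε c X Y = metric ε c Y X := by
  simp only [metric]
  rw [Matrix.trace_mul_comm]

theorem metric_add_left (ε c : ℝ) (X Y Z : Mat m) :
    metric ε c (X + Y) Z = metric ε c X Z + metric ε c Y Z := by
  simp [metric, add_mul]
  ring

theorem metric_smul_left (ε c a : ℝ) (X Y : Mat m) :
    metric ε c (a • X) Y = a • metric ε c X Y := by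
  simp [metric]
  ring

theorem metric_add_right (ε c : ℝ) (X Y Z : Mat m) :
    metric ε c X (Y + Z) = metric ε c X Y + metric ε c X Z := by
  simp [metric, mul_add]

theorem metric_smul_right (ε c a : ℝ) (X Y : Mat m) :
    metric ε c X (a • Y) = a • metric ε c X Y := by
  simp [metric]
  ring

theorem exists_metricC (ε c : ℝ) (m : ℕ) :
    ∃ B : Mat m →L[ℝ] Mat m →L[ℝ] ℝ, ∀ X Y, B X Y = metric ε c X Y :=
  exists_clm₂ (V := Mat m) (W := Mat m) (metric ε c) (metric_add_left ε c)
    (metric_smul_left ε c) (metric_add_right ε c) (metric_smul_right ε c)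

end Bilinear

section Deriv

variable {m : ℕ} {E : Type*} [NormedAddCommGroup E] [NormedSpace ℝ E] {a b : E → Mat m} {x : E}

theorem fderiv_mul_mat (ha : DifferentiableAt ℝ a x) (hb : DifferentiableAt ℝ b x) :
    DifferentiableAt ℝ (fun y => a y * b y) x ∧
    ∀ u, fderiv ℝ (fun y => a y * b y) x u = fderiv ℝ a x u * b x + a x * fderiv ℝ b x u :=
  fderiv_bil (V := Mat m) (W := Mat m) (Z := Mat m) (fun X Y => X * Y)
    (fun X Y Z => add_mul X Y Z) (fun r X Y => smul_mul_assoc r X Y)
    (fun X Y Z => mul_add X Y Z) (fun r X Y => mul_smul_comm r X Y) ha hb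

theorem fderiv_conj_mat (K : Mat m) (ha : DifferentiableAt ℝ a x) (u : E) :
    fderiv ℝ (fun y => (a y)ᴴ * K) x u = (fderiv ℝ a x u)ᴴ * K :=
  fderiv_lin (V := Mat m) (W := Mat m) (fun X => Xᴴ * K) (fun X Y => by
    rw [conjTranspose_add, add_mul]) (fun r X => by
    rw [conjTranspose_smul, smul_mul_assoc, star_trivial]) ha u

theorem fderiv_left_mat (K : Mat m) (ha : DifferentiableAt ℝ a x) (u : E) :
    fderiv ℝ (fun y => K * a y) x u = K * fderiv ℝ a x u :=
  fderiv_lin (V := Mat m) (W := Mat m) (fun X => K * X) (fun X Y => mul_add K X Y)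
    (fun r X => mul_smul_comm r K X) ha u

end Deriv

section SpaceFacts

variable {m : ℕ} {ε : ℝ}

theorem form_sq (hε : ε * ε = 1) : form ε m * form ε m = 1 := by
  have h : (ε : ℂ) * ε = 1 := by exact_mod_cast hε
  simp [form, Matrix.fromBlocks_multiply, smul_smul, hε]

theorem form_conj : (form ε m)ᴴ = form ε m := by
  simp [form, Matrix.fromBlocks_conjTranspose]

theorem base_sq : base m * base m = base m := by
  simp [base, Matrix.fromBlocks_multiply]

theorem base_conj : (base m)ᴴ = base m := by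
  simp [base, Matrix.fromBlocks_conjTranspose]

theorem base_form : base m * form ε m = form ε m * base m := by
  simp [base, form, Matrix.fromBlocks_multiply]

/-- The inverse of a matrix preserving the form. -/
noncomputable def ginv (ε : ℝ) (g : Mat m) : Mat m := form ε m * gᴴ * form ε m

theorem ginv_mul (hε : ε * ε = 1) {g : Mat m} (hg : gᴴ * form ε m * g = form ε m) :
    ginv ε g * g = 1 := by
  rw [ginv, mul_assoc, mul_assoc, ← mul_assoc gᴴ, hg, form_sq hε]

theorem mul_ginv (hε : ε * ε = 1) {g : Mat m} (hg : gᴴ * form ε m * g = form ε m) :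
    g * ginv ε g = 1 := mul_eq_one_comm.1 (ginv_mul hε hg)

theorem space_eq (hε : ε * ε = 1) {P g : Mat m} (hg : gᴴ * form ε m * g = form ε m)
    (hP : P * g = g * base m) : P = g * base m * ginv ε g := by
  rw [← hP, mul_assoc, mul_ginv hε hg, mul_one]

theorem ginv_conj (hε : ε * ε = 1) (g : Mat m) : (ginv ε g)ᴴ * form ε m = form ε m * g := by
  rw [ginv, conjTranspose_mul, conjTranspose_mul, conjTranspose_conjTranspose, form_conj,
    mul_assoc, mul_assoc, form_sq hε, mul_one]

theorem conj_ginv (hε : ε * ε = 1) (g : Mat m) : gᴴ * form ε m = form ε m * ginv ε g := by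
  rw [ginv, ← mul_assoc, ← mul_assoc, form_sq hε, one_mul]

/-- Conjugation by `g` preserves the matrices that are self-adjoint for the form. -/
theorem selfadj_conj (hε : ε * ε = 1) {g X : Mat m}
    (hX : Xᴴ * form ε m = form ε m * X) :
    (g * X * ginv ε g)ᴴ * form ε m = form ε m * (g * X * ginv ε g) := by
  rw [conjTranspose_mul, conjTranspose_mul]
  calc (ginv ε g)ᴴ * (Xᴴ * gᴴ) * form ε m = (ginv ε g)ᴴ * Xᴴ * (gᴴ * form ε m) := by noncomm_ring
    _ = (ginv ε g)ᴴ * (Xᴴ * form ε m) * ginv ε g := by rw [conj_ginv hε]; noncomm_ring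
    _ = (ginv ε g)ᴴ * form ε m * X * ginv ε g := by rw [hX]; noncomm_ring
    _ = form ε m * (g * X * ginv ε g) := by rw [ginv_conj hε]; noncomm_ring

theorem space_idem (hε : ε * ε = 1) {P : Mat m} (hP : P ∈ Space ε m) : P * P = P := by
  obtain ⟨g, hg, -, h⟩ := hP
  rw [space_eq hε hg h]
  calc g * base m * ginv ε g * (g * base m * ginv ε g)
      = g * base m * (ginv ε g * g) * base m * ginv ε g := by noncomm_ring
    _ = g * (base m * base m) * ginv ε g := by rw [ginv_mul hε hg]; noncomm_ring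
    _ = _ := by rw [base_sq]

theorem space_selfadj (hε : ε * ε = 1) {P : Mat m} (hP : P ∈ Space ε m) :
    Pᴴ * form ε m = form ε m * P := by
  obtain ⟨g, hg, -, h⟩ := hP
  rw [space_eq hε hg h]
  exact selfadj_conj hε (by rw [base_conj, base_form])

end SpaceFacts

section Tangent

variable {m : ℕ} {ε c : ℝ} {Ω : Set (Coord m)} {F N : Coord m → Mat m}

theorem IsHypersurface.smooth' (h : IsHypersurface ε c m Ω F N) : ContDiffOn ℝ ∞ F Ω := h.smooth

theorem IsHypersurface.smooth_normal' (h : IsHypersurface ε c m Ω F N) : ContDiffOn ℝ ∞ N Ω :=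
  h.smooth_normal

theorem IsHypersurface.immersion' (h : IsHypersurface ε c m Ω F N) (x : Coord m) (hx : x ∈ Ω) :
    Function.Injective (fderiv ℝ F x) := h.immersion x hx

theorem IsHypersurface.orthogonal_normal' (h : IsHypersurface ε c m Ω F N) (x : Coord m)
    (hx : x ∈ Ω) (u : Coord m) : metric ε c (fderiv ℝ F x u) (N x) = 0 :=
  h.orthogonal_normal x hx u

theorem diff_F (h : IsHypersurface ε c m Ω F N) {x : Coord m} (hx : x ∈ Ω) :
    DifferentiableAt ℝ F x := (contDiffAt_F h.isOpen h.smooth' hx).differentiableAt (by simp)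

theorem diff_N (h : IsHypersurface ε c m Ω F N) {x : Coord m} (hx : x ∈ Ω) :
    DifferentiableAt ℝ N x := (contDiffAt_F h.isOpen h.smooth_normal' hx).differentiableAt (by simp)

theorem diff_fst (h : IsHypersurface ε c m Ω F N) {x : Coord m} (hx : x ∈ Ω) (v : Coord m) :
    DifferentiableAt ℝ (fun y => fderiv ℝ F y v) x :=
  (fderiv_fst h.isOpen h.smooth' hx v).differentiableAt

theorem fderiv_fst_apply (h : IsHypersurface ε c m Ω F N) {x : Coord m} (hx : x ∈ Ω)
    (u v : Coord m) : fderiv ℝ (fun y => fderiv ℝ F y v) x u = snd F x u v := by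
  have h1 := (fderiv_fst h.isOpen h.smooth' hx v).fderiv
  exact congrArg (fun L => L u) h1

theorem tangent_fst (hε : ε * ε = 1) (h : IsHypersurface ε c m Ω F N) {x : Coord m}
    (hx : x ∈ Ω) (u : Coord m) : IsTangent ε (F x) (fderiv ℝ F x u) := by
  have hd := diff_F h hx
  constructor
  · have h1 := fderiv_congr_on h.isOpen (fun y hy => space_selfadj hε (h.mem y hy)) hx u
    have h2 := fderiv_conj_mat (form ε m) hd u
    have h3 := fderiv_left_mat (form ε m) hd u
    exact h2.symm.trans (h1.trans h3)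
  · have h1 := fderiv_congr_on h.isOpen (fun y hy => space_idem hε (h.mem y hy)) hx u
    have h2 := (fderiv_mul_mat hd hd).2 u
    rw [add_comm]
    exact h2.symm.trans h1

theorem snd_eq (hε : ε * ε = 1) (h : IsHypersurface ε c m Ω F N) {x : Coord m} (hx : x ∈ Ω)
    (u v : Coord m) : (snd F x u v)ᴴ * form ε m = form ε m * snd F x u v ∧
    snd F x u v = F x * snd F x u v + snd F x u v * F x +
      (fderiv ℝ F x u * fderiv ℝ F x v + fderiv ℝ F x v * fderiv ℝ F x u) := by
  have hd := diff_F h hx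
  have hd2 := diff_fst h hx v
  have e := fderiv_fst_apply h hx u v
  constructor
  · have h1 := fderiv_congr_on h.isOpen (fun y hy => (tangent_fst hε h hy v).1) hx u
    have h2 := fderiv_conj_mat (form ε m) hd2 u
    have h3 := fderiv_left_mat (form ε m) hd2 u
    rw [e] at h2 h3
    exact h2.symm.trans (h1.trans h3)
  · have h1 := fderiv_congr_on h.isOpen (fun y hy => (tangent_fst hε h hy v).2) hx u
    have h2 := fderiv_mul_mat hd hd2
    have h3 := fderiv_mul_mat hd2 hd
    have h4 := fderiv_fun_add h2.1 h3.1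
    have h5 := congrArg (fun L => L u) h4
    have h6 := h5.symm.trans h1
    have h7 : (fderiv ℝ (fun y => F y * fderiv ℝ F y v) x + fderiv ℝ (fun y => fderiv ℝ F y v * F y) x) u
      = fderiv ℝ (fun y => F y * fderiv ℝ F y v) x u + fderiv ℝ (fun y => fderiv ℝ F y v * F y) x u := rfl
    have h8 := h7.symm.trans h6
    rw [h2.2, h3.2, e] at h8
    refine (h8.trans e).symm.trans ?_
    abel

theorem normal_eq (hε : ε * ε = 1) (h : IsHypersurface ε c m Ω F N) {x : Coord m} (hx : x ∈ Ω)
    (u : Coord m) : (fderiv ℝ N x u)ᴴ * form ε m = form ε m * fderiv ℝ N x u ∧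
    fderiv ℝ N x u = F x * fderiv ℝ N x u + fderiv ℝ N x u * F x +
      (fderiv ℝ F x u * N x + N x * fderiv ℝ F x u) := by
  have hd := diff_F h hx
  have hd2 := diff_N h hx
  constructor
  · have h1 := fderiv_congr_on h.isOpen (fun y hy => (h.tangent_normal y hy).1) hx u
    have h2 := fderiv_conj_mat (form ε m) hd2 u
    have h3 := fderiv_left_mat (form ε m) hd2 u
    exact h2.symm.trans (h1.trans h3)
  · have h1 := fderiv_congr_on h.isOpen (fun y hy => (h.tangent_normal y hy).2) hx u
    have h2 := fderiv_mul_mat hd hd2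
    have h3 := fderiv_mul_mat hd2 hd
    have h4 := fderiv_fun_add h2.1 h3.1
    have h5 := congrArg (fun L => L u) h4
    have h6 := h5.symm.trans h1
    have h7 : (fderiv ℝ (fun y => F y * N y) x + fderiv ℝ (fun y => N y * F y) x) u
      = fderiv ℝ (fun y => F y * N y) x u + fderiv ℝ (fun y => N y * F y) x u := rfl
    have h8 := h7.symm.trans h6
    rw [h2.2, h3.2] at h8
    refine h8.symm.trans ?_
    abel

/-- Differentiating `⟨dF v, N⟩ = 0`. -/
theorem weingarten (h : IsHypersurface ε c m Ω F N) {x : Coord m} (hx : x ∈ Ω)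
    (u v : Coord m) : metric ε c (snd F x u v) (N x) +
      metric ε c (fderiv ℝ F x v) (fderiv ℝ N x u) = 0 := by
  have hd2 := diff_N h hx
  have hd := diff_fst h hx v
  have h1 := fderiv_congr_on h.isOpen (fun y hy => h.orthogonal_normal' y hy v) hx u
  have h2 := fderiv_bil (V := Mat m) (W := Mat m) (metric ε c) (metric_add_left ε c)
    (metric_smul_left ε c) (metric_add_right ε c) (metric_smul_right ε c) hd hd2
  have h3 := (h2.2 u).symm.trans h1
  have h4 : metric ε c (snd F x u v) (N x) =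
      metric ε c (fderiv ℝ (fun y => fderiv ℝ F y v) x u) (N x) :=
    congrArg (fun Y => metric ε c Y (N x)) (fderiv_fst_apply h hx u v).symm
  rw [h4]
  refine h3.trans ?_
  simp

end Tangent

end Pool.Agent.GrassHyp67
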