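import Pool.Agent.helper67.GrassHyp.Amb

/-!
# Block coordinates of the tangent spaces
-/

set_option autoImplicit false

open Matrix Set
open scoped Matrix.Norms.Elementwise ContDiff

namespace Pool.Agent.GrassHyp67

/-- The `m × 2` blocks. -/
abbrev Blk (m : ℕ) := Matrix (Fin m) (Fin 2) ℂ

/-- The inner product of the blocks. -/
noncomputable def ipb (c : ℝ) {m : ℕ} (x y : Blk m) : ℝ := 2 * c * (xᴴ * y).trace.re

/-- The tangent vector at the base point with block `x`. -/
def tvec (ε : ℝ) {m : ℕ} (x : Blk m) : Mat m := Matrix.fromBlocks 0 ((ε : ℂ) • xᴴ) x 0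

/-- The tangent vector at `g • base` with block `x`. -/
noncomputable def lift (ε : ℝ) {m : ℕ} (g : Mat m) (x : Blk m) : Mat m := g * tvec ε x * ginv ε g

/-- The block of a matrix. -/
noncomputable def blk (ε : ℝ) {m : ℕ} (g : Mat m) (X : Mat m) : Blk m :=
  (ginv ε g * X * g).toBlocks₂₁

section

variable {m : ℕ} {ε c : ℝ}

theorem trace_blocks (A : Matrix (Fin 2) (Fin 2) ℂ) (B : Matrix (Fin 2) (Fin m) ℂ) (C : Blk m)
    (D : Matrix (Fin m) (Fin m) ℂ) : (Matrix.fromBlocks A B C D).trace = A.trace + D.trace := by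
  simp [Matrix.trace, Fintype.sum_sum_type]

theorem ipb_comm (x y : Blk m) : ipb c x y = ipb c y x := by
  have h : (xᴴ * y).trace = star ((yᴴ * x).trace) := by
    rw [← Matrix.trace_conjTranspose, conjTranspose_mul, conjTranspose_conjTranspose]
  simp only [ipb, h]
  simp

theorem ipb_add_left (x y z : Blk m) : ipb c (x + y) z = ipb c x z + ipb c y z := by
  simp [ipb, Matrix.add_mul]
  ring

theorem ipb_add_right (x y z : Blk m) : ipb c x (y + z) = ipb c x y + ipb c x z := by
  simp [ipb, Matrix.mul_add]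
  ring

theorem ipb_smul_left (a : ℝ) (x y : Blk m) : ipb c (a • x) y = a * ipb c x y := by
  simp [ipb]
  ring

theorem ipb_smul_right (a : ℝ) (x y : Blk m) : ipb c x (a • y) = a * ipb c x y := by
  simp [ipb]
  ring

theorem ipb_self (x : Blk m) : ipb c x x = 2 * c * ∑ j, ∑ i, ‖x i j‖ ^ 2 := by
  simp only [ipb, Matrix.trace, Matrix.diag, Matrix.mul_apply, conjTranspose_apply,
    Complex.star_def, Complex.conj_mul']
  norm_cast

theorem ipb_self_eq_zero (hc : 0 < c) {x : Blk m} (h : ipb c x x = 0) : x = 0 := by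
  rw [ipb_self] at h
  have h1 : ∑ j, ∑ i, ‖x i j‖ ^ 2 = 0 := by
    rcases mul_eq_zero.1 h with h | h
    · linarith
    · exact h
  rw [Finset.sum_eq_zero_iff_of_nonneg (fun j _ => Finset.sum_nonneg fun i _ => by positivity)] at h1
  ext i j
  have h2 := h1 j (Finset.mem_univ _)
  rw [Finset.sum_eq_zero_iff_of_nonneg (fun i _ => by positivity)] at h2
  have h3 := h2 i (Finset.mem_univ _)
  simpa using h3

theorem tvec_add (x y : Blk m) : tvec ε (x + y) = tvec ε x + tvec ε y := by
  simp [tvec, Matrix.fromBlocks_add]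

theorem tvec_smul (a : ℝ) (x : Blk m) : tvec ε (a • x) = a • tvec ε x := by
  simp only [tvec, Matrix.fromBlocks_smul, conjTranspose_smul, star_trivial, smul_zero]
  rw [smul_comm]

theorem tvec_selfadj (x : Blk m) : (tvec ε x)ᴴ * form ε m = form ε m * tvec ε x := by
  simp [tvec, form, Matrix.fromBlocks_conjTranspose, Matrix.fromBlocks_multiply]

theorem tvec_mul (x y : Blk m) :
    tvec ε x * tvec ε y = Matrix.fromBlocks ((ε : ℂ) • (xᴴ * y)) 0 0 ((ε : ℂ) • (x * yᴴ)) := by
  simp [tvec, Matrix.fromBlocks_multiply]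

theorem lift_add (g : Mat m) (x y : Blk m) : lift ε g (x + y) = lift ε g x + lift ε g y := by
  simp only [lift, tvec_add]
  noncomm_ring

theorem lift_smul (g : Mat m) (a : ℝ) (x : Blk m) : lift ε g (a • x) = a • lift ε g x := by
  simp only [lift, tvec_smul]
  simp

theorem blk_lift (hε : ε * ε = 1) {g : Mat m} (hg : gᴴ * form ε m * g = form ε m) (x : Blk m) :
    blk ε g (lift ε g x) = x := by
  have h : ginv ε g * lift ε g x * g = tvec ε x := by
    calc ginv ε g * (g * tvec ε x * ginv ε g) * g
        = (ginv ε g * g) * tvec ε x * (ginv ε g * g) := by noncomm_ring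
      _ = tvec ε x := by rw [ginv_mul hε hg]; noncomm_ring
  rw [blk, h]
  simp [tvec]

/-- The blocks of a matrix that is self-adjoint for the form. -/
theorem selfadj_blocks {X : Mat m} (hX : Xᴴ * form ε m = form ε m * X) :
    X.toBlocks₁₂ = (ε : ℂ) • (X.toBlocks₂₁)ᴴ := by
  rw [← Matrix.fromBlocks_toBlocks X] at hX
  simp only [form, Matrix.fromBlocks_conjTranspose, Matrix.fromBlocks_multiply] at hX
  have h := congrArg Matrix.toBlocks₁₂ hX
  simp at h
  exact h.symm

theorem conj_selfadj (hε : ε * ε = 1) {g X : Mat m}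
    (hX : Xᴴ * form ε m = form ε m * X) :
    (ginv ε g * X * g)ᴴ * form ε m = form ε m * (ginv ε g * X * g) := by
  rw [conjTranspose_mul, conjTranspose_mul]
  calc gᴴ * (Xᴴ * (ginv ε g)ᴴ) * form ε m = gᴴ * Xᴴ * ((ginv ε g)ᴴ * form ε m) := by noncomm_ring
    _ = gᴴ * (Xᴴ * form ε m) * g := by rw [ginv_conj hε]; noncomm_ring
    _ = gᴴ * form ε m * X * g := by rw [hX]; noncomm_ring
    _ = form ε m * (ginv ε g * X * g) := by rw [conj_ginv hε]; noncomm_ring

/-- A tangent vector is determined by its block. -/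
theorem lift_blk (hε : ε * ε = 1) {P g : Mat m} (hg : gᴴ * form ε m * g = form ε m)
    (hP : P * g = g * base m) {X : Mat m} (hX : IsTangent ε P X) : lift ε g (blk ε g X) = X := by
  set Y : Mat m := ginv ε g * X * g with hY
  have hs := conj_selfadj (g := g) hε hX.1
  rw [← hY] at hs
  have hXY : X = g * Y * ginv ε g := by
    rw [hY]
    calc X = (g * ginv ε g) * X * (g * ginv ε g) := by rw [mul_ginv hε hg]; noncomm_ring
      _ = _ := by noncomm_ring
  have hgP : ginv ε g * P = base m * ginv ε g := by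
    rw [space_eq hε hg hP]
    calc ginv ε g * (g * base m * ginv ε g) = (ginv ε g * g) * base m * ginv ε g := by noncomm_ring
      _ = _ := by rw [ginv_mul hε hg]; noncomm_ring
  have ht : base m * Y + Y * base m = Y := by
    calc base m * Y + Y * base m = (base m * ginv ε g) * X * g + ginv ε g * X * (g * base m) := by
          rw [hY]; noncomm_ring
      _ = ginv ε g * (P * X + X * P) * g := by rw [← hgP, ← hP]; noncomm_ring
      _ = Y := by rw [hX.2]
  have h12 := selfadj_blocks hs
  rw [lift, blk, ← hY]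
  conv_rhs => rw [hXY]
  congr 2
  rw [← Matrix.fromBlocks_toBlocks Y] at ht
  simp only [base, Matrix.fromBlocks_multiply, Matrix.fromBlocks_add] at ht
  have h11 := congrArg Matrix.toBlocks₁₁ ht
  have h22 := congrArg Matrix.toBlocks₂₂ ht
  simp at h11 h22
  conv_rhs => rw [← Matrix.fromBlocks_toBlocks Y]
  rw [tvec, ← h12, h11, ← h22]

theorem ginv_space (hε : ε * ε = 1) {P g : Mat m} (hg : gᴴ * form ε m * g = form ε m)
    (hP : P * g = g * base m) : ginv ε g * P = base m * ginv ε g := by
  rw [space_eq hε hg hP]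
  calc ginv ε g * (g * base m * ginv ε g) = (ginv ε g * g) * base m * ginv ε g := by noncomm_ring
    _ = _ := by rw [ginv_mul hε hg]; noncomm_ring

theorem lift_tangent (hε : ε * ε = 1) {P g : Mat m} (hg : gᴴ * form ε m * g = form ε m)
    (hP : P * g = g * base m) (x : Blk m) : IsTangent ε P (lift ε g x) := by
  constructor
  · exact selfadj_conj hε (tvec_selfadj x)
  · have h1 : base m * tvec ε x + tvec ε x * base m = tvec ε x := by
      simp [tvec, base, Matrix.fromBlocks_multiply, Matrix.fromBlocks_add]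
    calc P * lift ε g x + lift ε g x * P
        = (P * g) * tvec ε x * ginv ε g + g * tvec ε x * (ginv ε g * P) := by
          rw [lift]; noncomm_ring
      _ = g * (base m * tvec ε x + tvec ε x * base m) * ginv ε g := by
          rw [hP, ginv_space hε hg hP]; noncomm_ring
      _ = lift ε g x := by rw [h1, lift]

theorem metric_lift (hε : ε * ε = 1) {g W : Mat m} (hW : Wᴴ * form ε m = form ε m * W)
    (y : Blk m) : metric ε c W (lift ε g y) = ipb c (blk ε g W) y := by
  have h1 : (W * lift ε g y).trace = ((ginv ε g * W * g) * tvec ε y).trace := by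
    calc (W * lift ε g y).trace = (((W * g) * tvec ε y) * ginv ε g).trace := by
          rw [lift]; congr 1; noncomm_ring
      _ = (ginv ε g * ((W * g) * tvec ε y)).trace := Matrix.trace_mul_comm _ _
      _ = _ := by congr 1; noncomm_ring
  set Y : Mat m := ginv ε g * W * g with hY
  have hs : Yᴴ * form ε m = form ε m * Y := conj_selfadj (g := g) hε hW
  have h12 := selfadj_blocks hs
  have h2 : (Y * tvec ε y).trace = (ε : ℂ) * ((Y.toBlocks₂₁ᴴ * y).trace +
      (Y.toBlocks₂₁ * yᴴ).trace) := by
    conv_lhs => rw [← Matrix.fromBlocks_toBlocks Y, tvec, Matrix.fromBlocks_multiply,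
      trace_blocks, h12]
    simp
    ring
  have h3 : (Y.toBlocks₂₁ * yᴴ).trace = star ((Y.toBlocks₂₁ᴴ * y).trace) := by
    rw [← Matrix.trace_conjTranspose, conjTranspose_mul, conjTranspose_conjTranspose,
      Matrix.trace_mul_comm]
  rw [metric, h1, h2, h3, blk, ← hY, ipb]
  simp
  linear_combination (2 * c * ((Y.toBlocks₂₁ᴴ * y).trace).re) * hε

end

section Hyper

variable {m : ℕ} {ε c : ℝ} {Ω : Set (Coord m)} {F N : Coord m → Mat m}

theorem finrank_blk (m : ℕ) : Module.finrank ℝ (Blk m) = 4 * m := by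
  have h := Module.finrank_mul_finrank ℝ ℂ (Blk m)
  rw [← h, Module.finrank_matrix, Complex.finrank_real_complex]
  simp
  ring

/-- Every tangent vector orthogonal to `N` is tangent to the hypersurface. -/
theorem exists_fderiv_eq (hε : ε * ε = 1) (hm : 1 ≤ m) (h : IsHypersurface ε c m Ω F N)
    {x : Coord m} (hx : x ∈ Ω) {X : Mat m} (hX : IsTangent ε (F x) X)
    (hXN : metric ε c X (N x) = 0) : ∃ v, fderiv ℝ F x v = X := by
  obtain ⟨g, hg, -, hP⟩ := h.mem x hx
  have hN := h.tangent_normal x hx
  set n : Blk m := blk ε g (N x) with hn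
  have hNn : lift ε g n = N x := lift_blk hε hg hP hN
  have hT := fun u => tangent_fst hε h hx u
  let S : Coord m → Blk m := fun u => blk ε g (fderiv ℝ F x u)
  have hS : ∀ u, lift ε g (S u) = fderiv ℝ F x u := fun u => lift_blk hε hg hP (hT u)
  have hnn : ipb c n n = 1 := by
    have h1 := h.unit_normal x hx
    rw [← metric_lift hε hN.1, hNn]
    exact h1
  have hSn : ∀ u, ipb c (S u) n = 0 := by
    intro u
    rw [← metric_lift hε (hT u).1, hNn]
    exact h.orthogonal_normal' x hx u
  let Ψ : (Coord m × ℝ) →ₗ[ℝ] Blk m :=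
    { toFun := fun p => S p.1 + p.2 • n
      map_add' := fun p q => by
        have : S (p.1 + q.1) = S p.1 + S q.1 := by
          simp only [S, blk, map_add, mul_add, add_mul]
          rfl
        simp only [Prod.fst_add, Prod.snd_add, this, add_smul]
        abel
      map_smul' := fun a p => by
        have : S (a • p.1) = a • S p.1 := by
          simp only [S, blk, map_smul, mul_smul_comm, smul_mul_assoc]
          rfl
        simp only [Prod.smul_fst, Prod.smul_snd, this, smul_add, smul_smul, smul_eq_mul,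
          RingHom.id_apply] }
  have hinj : Function.Injective Ψ := by
    rw [← LinearMap.ker_eq_bot, LinearMap.ker_eq_bot']
    intro p hp
    have h1 : S p.1 + p.2 • n = 0 := hp
    have h2 : ipb c (S p.1 + p.2 • n) n = 0 := by rw [h1]; simp [ipb]
    rw [ipb_add_left, hSn, ipb_smul_left, hnn] at h2
    have h3 : p.2 = 0 := by linarith
    rw [h3, zero_smul, add_zero] at h1
    have h4 : fderiv ℝ F x p.1 = 0 := by
      rw [← hS, h1]
      simp [lift, tvec]
    have h5 : p.1 = 0 := h.immersion' x hx (h4.trans (map_zero _).symm)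
    exact Prod.ext h5 h3
  have hfr : Module.finrank ℝ (Coord m × ℝ) = Module.finrank ℝ (Blk m) := by
    rw [finrank_blk, Module.finrank_prod]
    simp
    omega
  have hsurj := (LinearMap.injective_iff_surjective_of_finrank_eq_finrank hfr).1 hinj
  obtain ⟨⟨v, t⟩, hv⟩ := hsurj (blk ε g X)
  have h1 : S v + t • n = blk ε g X := hv
  have h2 : ipb c (blk ε g X) n = 0 := by
    rw [← metric_lift hε hX.1, hNn]
    exact hXN
  rw [← h1, ipb_add_left, hSn, ipb_smul_left, hnn] at h2
  have h3 : t = 0 := by linarith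
  rw [h3, zero_smul, add_zero] at h1
  refine ⟨v, ?_⟩
  rw [← hS, h1, lift_blk hε hg hP hX]

theorem metric_self_eq_zero (hε : ε * ε = 1) (hc : 0 < c) {P : Mat m} (hP : P ∈ Space ε m)
    {X : Mat m} (hX : IsTangent ε P X) (h : metric ε c X X = 0) : X = 0 := by
  obtain ⟨g, hg, -, hP⟩ := hP
  have h1 := lift_blk hε hg hP hX
  have h2 : ipb c (blk ε g X) (blk ε g X) = 0 := by
    rw [← metric_lift hε hX.1, h1]
    exact h
  rw [← h1, ipb_self_eq_zero hc h2]
  simp [lift, tvec]

theorem metric_sub_left (X Y Z : Mat m) :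
    metric ε c (X - Y) Z = metric ε c X Z - metric ε c Y Z := by
  simp [metric, sub_mul]
  ring

theorem metric_sub_right (X Y Z : Mat m) :
    metric ε c X (Y - Z) = metric ε c X Y - metric ε c X Z := by
  simp [metric, mul_sub]

theorem IsTangent.sub {P X Y : Mat m} (hX : IsTangent ε P X) (hY : IsTangent ε P Y) :
    IsTangent ε P (X - Y) := by
  refine ⟨?_, ?_⟩
  · rw [conjTranspose_sub, sub_mul, hX.1, hY.1, mul_sub]
  · calc P * (X - Y) + (X - Y) * P = (P * X + X * P) - (P * Y + Y * P) := by noncomm_ring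
      _ = _ := by rw [hX.2, hY.2]

theorem IsTangent.smul {P X : Mat m} (hX : IsTangent ε P X) (a : ℝ) :
    IsTangent ε P (a • X) := by
  refine ⟨?_, ?_⟩
  · rw [conjTranspose_smul, star_trivial, smul_mul_assoc, hX.1, mul_smul_comm]
  · rw [mul_smul_comm, smul_mul_assoc, ← smul_add, hX.2]

/-- A tangent vector orthogonal to the hypersurface is a multiple of `N`. -/
theorem normal_of_orth (hε : ε * ε = 1) (hc : 0 < c) (hm : 1 ≤ m)
    (h : IsHypersurface ε c m Ω F N) {x : Coord m} (hx : x ∈ Ω) {Z : Mat m}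
    (hZ : IsTangent ε (F x) Z) (hZo : ∀ z, metric ε c Z (fderiv ℝ F x z) = 0) :
    Z = metric ε c Z (N x) • N x := by
  set t := metric ε c Z (N x) with ht
  have hN := h.tangent_normal x hx
  have hW : IsTangent ε (F x) (Z - t • N x) := hZ.sub (hN.smul t)
  have h1 : metric ε c (Z - t • N x) (N x) = 0 := by
    rw [metric_sub_left, metric_smul_left, h.unit_normal x hx, ← ht]
    simp
  obtain ⟨v, hv⟩ := exists_fderiv_eq hε hm h hx hW h1
  have h2 : metric ε c (Z - t • N x) (Z - t • N x) = 0 := by
    nth_rewrite 2 [← hv]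
    have h3 := h.orthogonal_normal' x hx v
    rw [metric_comm] at h3
    rw [metric_sub_left, metric_smul_left, h3, hZo]
    simp
  exact sub_eq_zero.1 (metric_self_eq_zero hε hc (h.mem x hx) hW h2)

end Hyper

end Pool.Agent.GrassHyp67
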