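import Mathlib

/-!
# Real hypersurfaces of the complex two-plane Grassmannians and of their noncompact duals

Definitions for the question whether the structure vector field of a real hypersurface of
`SU(m+2)/S(U(2)×U(m))` or `SU(2,m)/S(U(2)×U(m))` can lie in a `(κ,μ,ν)_i`-nullity distribution.
-/

set_option autoImplicit false

open Matrix Set
open scoped Matrix.Norms.Elementwise ContDiff

namespace Pool.Agent.GrassHyp67

/-- Complex square matrices of size `2 + m`. -/
abbrev Mat (m : ℕ) := Matrix (Fin 2 ⊕ Fin m) (Fin 2 ⊕ Fin m) ℂ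

/-- The matrix `diag(1, 1, ε, …, ε)`. -/
noncomputable def form (ε : ℝ) (m : ℕ) : Mat m := Matrix.fromBlocks 1 0 0 ((ε : ℂ) • 1)

/-- The matrix `diag(1, 1, 0, …, 0)`, the base point. -/
def base (m : ℕ) : Mat m := Matrix.fromBlocks 1 0 0 0

/-- The orbit of the base point under conjugation by the group of the matrices `g` of determinant
one that preserve the Hermitian form `diag(1, 1, ε, …, ε)`; the stabiliser of the base point is
`S(U(2) × U(m))`. Hence this is `SU(m+2)/S(U(2)×U(m))`, the Grassmannian of complex 2-planes of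
`ℂ^(m+2)`, for `ε = 1`, and its noncompact dual `SU(2,m)/S(U(2)×U(m))` for `ε = -1`. -/
def Space (ε : ℝ) (m : ℕ) : Set (Mat m) :=
  {P | ∃ g : Mat m, gᴴ * form ε m * g = form ε m ∧ g.det = 1 ∧ P * g = g * base m}

/-- The tangent vectors of the symmetric space `Space ε m` at its point `P`. -/
def IsTangent (ε : ℝ) {m : ℕ} (P X : Mat m) : Prop :=
  Xᴴ * form ε m = form ε m * X ∧ P * X + X * P = X

/-- The invariant Riemannian metric of `Space ε m` (with an arbitrary scale `c > 0`). -/
noncomputable def metric (ε c : ℝ) {m : ℕ} (X Y : Mat m) : ℝ := c * ε * (X * Y).trace.re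

/-- The complex structure `J` of the tangent space at `P`. -/
noncomputable def cplx {m : ℕ} (P X : Mat m) : Mat m := Complex.I • (X * P - P * X)

/-- The endomorphism `X ↦ X U - U X` of the tangent space at `P`. -/
def quat {m : ℕ} (U X : Mat m) : Mat m := X * U - U * X

/-- `U` is an element of the factor `su(2)` of the isotropy algebra at `P`; the endomorphisms
`quat U` for these `U` are the fibre at `P` of the quaternionic Kähler structure. -/
def IsQuat (ε : ℝ) {m : ℕ} (P U : Mat m) : Prop :=
  P * U = U ∧ U * P = U ∧ Uᴴ * form ε m = -(form ε m * U) ∧ U.trace = 0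

/-- `J₁, J₂, J₃`, with `J_i = quat (U i)`, is a frame of the quaternionic Kähler structure at `P`:
`J_i² = -id`, `J₁ J₂ = J₃` and cyclically. -/
def IsFrame (ε : ℝ) {m : ℕ} (P : Mat m) (U : Fin 3 → Mat m) : Prop :=
  (∀ i, IsQuat ε P (U i)) ∧ ∀ X, IsTangent ε P X →
    (∀ i, quat (U i) (quat (U i) X) = -X) ∧
    ∀ i, quat (U i) (quat (U (i + 1)) X) = quat (U (i + 2)) X

/-- The coordinate space of the real hypersurfaces, whose dimension is `4 m - 1`. -/
abbrev Coord (m : ℕ) := EuclideanSpace ℝ (Fin (4 * m - 1))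

/-- The derivative of the matrix-valued map `F` at `x` in the direction `u`. -/
noncomputable def dirD {m : ℕ} (F : Coord m → Mat m) (x u : Coord m) : Mat m := fderiv ℝ F x u

/-- The matrix-valued map `F` is smooth on `Ω`. -/
def IsSmooth {m : ℕ} (Ω : Set (Coord m)) (F : Coord m → Mat m) : Prop := ContDiffOn ℝ ∞ F Ω

/-- `F : Ω → Space ε m` is a parametrised real hypersurface, i.e. an immersion of a connected open
set of `ℝ^(4m-1)`, and `N` is a smooth unit normal field along it. -/
structure IsHypersurface (ε c : ℝ) (m : ℕ) (Ω : Set (Coord m)) (F N : Coord m → Mat m) :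
    Prop where
  isOpen : IsOpen Ω
  isConnected : IsConnected Ω
  smooth : IsSmooth Ω F
  mem : ∀ x ∈ Ω, F x ∈ Space ε m
  immersion : ∀ x ∈ Ω, Function.Injective (dirD F x)
  smooth_normal : IsSmooth Ω N
  tangent_normal : ∀ x ∈ Ω, IsTangent ε (F x) (N x)
  unit_normal : ∀ x ∈ Ω, metric ε c (N x) (N x) = 1
  orthogonal_normal : ∀ x ∈ Ω, ∀ u, metric ε c (dirD F x u) (N x) = 0

/-- The Riemannian metric induced by the immersion `F`, in the coordinates. -/
noncomputable def induced (ε c : ℝ) {m : ℕ} (F : Coord m → Mat m) (x u v : Coord m) : ℝ :=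
  metric ε c (dirD F x u) (dirD F x v)

section Riemann

variable {E : Type*} [NormedAddCommGroup E] [NormedSpace ℝ E]

/-- `Γ` is the Christoffel tensor on `Ω` of the Levi-Civita connection
`∇_u V = D_u V + Γ(u, V)` of the Riemannian metric `g`: the connection is torsion free and
metric. -/
def IsLeviCivita (Ω : Set E) (g : E → E → E → ℝ) (Γ : E → E →L[ℝ] E →L[ℝ] E) : Prop :=
  ContDiffOn ℝ ∞ Γ Ω ∧ ∀ x ∈ Ω, (∀ u v, Γ x u v = Γ x v u) ∧
    ∀ u v w, fderiv ℝ (fun y => g y v w) x u = g x (Γ x u v) w + g x v (Γ x u w)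

/-- The curvature tensor `R(u, v) w` at `x` of the connection with Christoffel tensor `Γ`. -/
noncomputable def riemann (Γ : E → E →L[ℝ] E →L[ℝ] E) (x u v w : E) : E :=
  (fderiv ℝ Γ x u) v w - (fderiv ℝ Γ x v) u w + Γ x u (Γ x v w) - Γ x v (Γ x u w)

end Riemann

/-- The Christoffel tensors on the coordinate space. -/
abbrev Christoffel (m : ℕ) := Coord m → Coord m →L[ℝ] Coord m →L[ℝ] Coord m

/-- `Γ` is the Levi-Civita connection of the induced metric on `Ω`. -/
def IsInducedConnection (ε c : ℝ) {m : ℕ} (Ω : Set (Coord m)) (F : Coord m → Mat m)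
    (Γ : Christoffel m) : Prop := IsLeviCivita Ω (induced ε c F) Γ

/-- The curvature tensor `R(u, v) w` of the hypersurface at `x`. -/
noncomputable def curv {m : ℕ} (Γ : Christoffel m) (x u v w : Coord m) : Coord m :=
  riemann Γ x u v w

/-- The fields of endomorphisms of the coordinate space. -/
abbrev Field (m : ℕ) := Coord m → Coord m →ₗ[ℝ] Coord m

/-- `A` is the shape operator with respect to the unit normal field `N`, in the coordinates:
`g(A u, v) = -⟨∇_u N, v⟩`. (The derivative of `N` in the space of matrices differs from its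
covariant derivative in `Space ε m` by a matrix orthogonal to the tangent space.) -/
def IsShape (ε c : ℝ) {m : ℕ} (Ω : Set (Coord m)) (F N : Coord m → Mat m) (A : Field m) : Prop :=
  ∀ x ∈ Ω, ∀ u v, induced ε c F x (A x u) v = -metric ε c (dirD N x u) (dirD F x v)

/-- The one-form `η_i(X) = g(X, ξ_i)`, where `ξ_i = -J_i N` and `J_i = quat U`. -/
noncomputable def etaForm (ε c : ℝ) {m : ℕ} (N U X : Mat m) : ℝ := metric ε c X (-quat U N)

/-- The endomorphism `φ_i`: the part of `J_i X` tangent to the hypersurface. -/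
noncomputable def phi (ε c : ℝ) {m : ℕ} (N U X : Mat m) : Mat m :=
  quat U X - metric ε c (quat U X) N • N

/-- The vector `κ X + μ A X + ν φ_i A X`, where `AX` stands for `A X`. -/
noncomputable def comb (ε c : ℝ) {m : ℕ} (N U : Mat m) (κ μ ν : ℝ) (X AX : Mat m) : Mat m :=
  κ • X + μ • AX + ν • phi ε c N U AX

/-- The vector `ξ` of the coordinate space belongs at `x` to the `(κ,μ,ν)_i`-nullity distribution,
where `Ui` is the value at `x` of the `i`-th member of the frame. -/
def InNullity (ε c : ℝ) {m : ℕ} (F N : Coord m → Mat m) (Γ : Christoffel m) (A : Field m)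
    (Ui : Mat m) (κ μ ν : ℝ) (x ξ : Coord m) : Prop :=
  ∀ u v, dirD F x (curv Γ x u v ξ) =
    etaForm ε c (N x) Ui (dirD F x v) •
        comb ε c (N x) Ui κ μ ν (dirD F x u) (dirD F x (A x u)) -
      etaForm ε c (N x) Ui (dirD F x u) •
        comb ε c (N x) Ui κ μ ν (dirD F x v) (dirD F x (A x v))

/-- The function `κ` is smooth on `Ω`. -/
def IsSmoothFun {m : ℕ} (Ω : Set (Coord m)) (κ : Coord m → ℝ) : Prop := ContDiffOn ℝ ∞ κ Ω

/-- There is a real hypersurface of `Space ε m`, with a unit normal field `N` and a frame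
`J₁, J₂, J₃` of the quaternionic Kähler structure along it, an index `i` and smooth functions
`κ, μ, ν`, for which the structure vector field `ξ = -J N` lies everywhere in the
`(κ,μ,ν)_i`-nullity distribution. -/
def HasNullityHypersurface (ε c : ℝ) (m : ℕ) : Prop :=
  ∃ (Ω : Set (Coord m)) (F N : Coord m → Mat m) (Γ : Christoffel m) (A : Field m)
    (U : Fin 3 → Coord m → Mat m) (i : Fin 3) (κ μ ν : Coord m → ℝ) (ξ : Coord m → Coord m),
    IsHypersurface ε c m Ω F N ∧ IsInducedConnection ε c Ω F Γ ∧ IsShape ε c Ω F N A ∧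
    (∀ j, IsSmooth Ω (U j)) ∧ (∀ x ∈ Ω, IsFrame ε (F x) fun j => U j x) ∧
    IsSmoothFun Ω κ ∧ IsSmoothFun Ω μ ∧ IsSmoothFun Ω ν ∧
    (∀ x ∈ Ω, dirD F x (ξ x) = -cplx (F x) (N x)) ∧
    ∀ x ∈ Ω, InNullity ε c F N Γ A (U i x) (κ x) (μ x) (ν x) x (ξ x)

end Pool.Agent.GrassHyp67
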