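import Pool.Agent.helper67.GrassHyp.Sphere2

/-!
# Geodesic spheres in the case `m = 1`: the hypersurface and its nullity
-/

set_option autoImplicit false

open Matrix Set
open scoped Matrix.Norms.Elementwise ContDiff

namespace Pool.Agent.GrassHyp67

section Param

variable {ε c s r β : ℝ}

theorem diff_Ffun {x : Coord 1} (hx : x ∈ Dom) : DifferentiableAt ℝ (Ffun ε s r) x :=
  (contDiffAt_F Metric.isOpen_ball contDiffOn_Ffun hx).differentiableAt (by simp)

theorem Ffun_injective (hε : ε * ε = 1) (hsr : ε * s ^ 2 + r ^ 2 = 1) (hs : s ≠ 0) (hr : r ≠ 0)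
    {x : Coord 1} (hx : x ∈ Dom) : Function.Injective (fderiv ℝ (Ffun ε s r) x) := by
  have hε0 : ε ≠ 0 := fun h0 => by rw [h0] at hε; norm_num at hε
  have hk : ε * s * r ≠ 0 := mul_ne_zero (mul_ne_zero hε0 hs) hr
  have hd := diff_Ffun (ε := ε) (s := s) (r := r) hx
  rw [injective_iff_map_eq_zero]
  intro u hu
  have e0 : ∀ y, (Ffun ε s r y (Sum.inr 0) (Sum.inl 0)).im = ε * s * r * y i0 := by
    intro y
    have h1 := congrFun (congrFun (Ffun_entries hε hsr y) 0) 0
    have h2 : Ffun ε s r y (Sum.inr 0) (Sum.inl 0) = -((ε * s * r : ℝ) : ℂ) * star (wone y) := h1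
    rw [h2]
    simp [wone]
  have e1 : ∀ y, (Ffun ε s r y (Sum.inr 0) (Sum.inl 1)).re = -(ε * s * r) * y i1 := by
    intro y
    have h1 := congrFun (congrFun (Ffun_entries hε hsr y) 0) 1
    have h2 : Ffun ε s r y (Sum.inr 0) (Sum.inl 1) = -((ε * s * r : ℝ) : ℂ) * star (wtwo y) := h1
    rw [h2]
    simp [wtwo]
  have e2 : ∀ y, (Ffun ε s r y (Sum.inr 0) (Sum.inl 1)).im = ε * s * r * y i2 := by
    intro y
    have h1 := congrFun (congrFun (Ffun_entries hε hsr y) 0) 1
    have h2 : Ffun ε s r y (Sum.inr 0) (Sum.inl 1) = -((ε * s * r : ℝ) : ℂ) * star (wtwo y) := h1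
    rw [h2]
    simp [wtwo]
  have hcoord : ∀ (k : ℝ) (i : Fin (4 * 1 - 1)), fderiv ℝ (fun y : Coord 1 => k * y i) x u =
      k * u i := by
    intro k i
    have h1 : HasFDerivAt (fun y : Coord 1 => k * y i)
        (k • (EuclideanSpace.proj (𝕜 := ℝ) i : Coord 1 →L[ℝ] ℝ)) x :=
      (EuclideanSpace.proj (𝕜 := ℝ) i : Coord 1 →L[ℝ] ℝ).hasFDerivAt.const_mul k
    rw [h1.fderiv]
    simp
  have f0 : ε * s * r * u i0 = 0 := by
    have h1 := fderiv_lin (V := Mat 1) (W := ℝ) (fun M => (M (Sum.inr 0) (Sum.inl 0)).im)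
      (fun X Y => by simp) (fun a X => by simp) hd u
    have h2 : (fun y => (Ffun ε s r y (Sum.inr 0) (Sum.inl 0)).im) = fun y => ε * s * r * y i0 :=
      funext e0
    rw [h2, hcoord] at h1
    have h3 := congrArg (fun M : Mat 1 => (M (Sum.inr 0) (Sum.inl 0)).im) hu
    exact h1.trans (h3.trans (by simp))
  have f1 : -(ε * s * r) * u i1 = 0 := by
    have h1 := fderiv_lin (V := Mat 1) (W := ℝ) (fun M => (M (Sum.inr 0) (Sum.inl 1)).re)
      (fun X Y => by simp) (fun a X => by simp) hd u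
    have h2 : (fun y => (Ffun ε s r y (Sum.inr 0) (Sum.inl 1)).re) =
      fun y => -(ε * s * r) * y i1 := funext e1
    rw [h2, hcoord] at h1
    have h3 := congrArg (fun M : Mat 1 => (M (Sum.inr 0) (Sum.inl 1)).re) hu
    exact h1.trans (h3.trans (by simp))
  have f2 : ε * s * r * u i2 = 0 := by
    have h1 := fderiv_lin (V := Mat 1) (W := ℝ) (fun M => (M (Sum.inr 0) (Sum.inl 1)).im)
      (fun X Y => by simp) (fun a X => by simp) hd u
    have h2 : (fun y => (Ffun ε s r y (Sum.inr 0) (Sum.inl 1)).im) =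
      fun y => ε * s * r * y i2 := funext e2
    rw [h2, hcoord] at h1
    have h3 := congrArg (fun M : Mat 1 => (M (Sum.inr 0) (Sum.inl 1)).im) hu
    exact h1.trans (h3.trans (by simp))
  ext i
  fin_cases i
  · exact (mul_eq_zero.1 f0).resolve_left hk
  · exact (mul_eq_zero.1 f1).resolve_left (neg_ne_zero.2 hk)
  · exact (mul_eq_zero.1 f2).resolve_left hk

theorem base_eq (hε : ε * ε = 1) (hsr : ε * s ^ 2 + r ^ 2 = 1) {x : Coord 1} (hx : x ∈ Dom) :
    base 1 = gfun ε s r x * Qone ε s r * ginv ε (gfun ε s r x) := by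
  have h := gmat_Q hε hsr (wone x) (wtwo x)
  have h1 := mul_ginv hε (gfun_form (ε := ε) (s := s) (r := r) hε hsr hx)
  rw [gfun] at h1 ⊢
  rw [← h, mul_assoc, h1, mul_one]

/-- The block of the unit normal. -/
noncomputable def nblk (ε s r β : ℝ) : Blk 1 := !![0, ((β * ε * s * r : ℝ) : ℂ)]

theorem Nfun_eq (hε : ε * ε = 1) (hsr : ε * s ^ 2 + r ^ 2 = 1) {x : Coord 1} (hx : x ∈ Dom) :
    Nfun ε s r β x = lift ε (gfun ε s r x) (nblk ε s r β) := by
  set g := gfun ε s r x with hg
  have hgg : ginv ε g * g = 1 := ginv_mul hε (gfun_form hε hsr hx)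
  have hQ := base_eq (ε := ε) (s := s) (r := r) hε hsr hx
  rw [← hg] at hQ
  have hF : Ffun ε s r x = g * base 1 * ginv ε g := rfl
  have h1 : tvec ε (nblk ε s r β) = β • (base 1 * Qone ε s r + Qone ε s r * base 1 -
      2 * (base 1 * Qone ε s r * base 1)) := by
    have h2 : (ε : ℂ) * ε = 1 := by exact_mod_cast hε
    have h3 : (2 : Mat 1) = (2 : ℂ) • (1 : Mat 1) := by
      rw [two_smul]; norm_num
    rw [h3, smul_mul_assoc, one_mul, tvec, base, Qone, Matrix.fromBlocks_multiply,
      Matrix.fromBlocks_multiply, Matrix.fromBlocks_multiply, Matrix.fromBlocks_add,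
      Matrix.fromBlocks_smul, sub_eq_add_neg, Matrix.fromBlocks_neg, Matrix.fromBlocks_add,
      Matrix.fromBlocks_smul]
    congr 1
    · ext i j
      fin_cases i <;> fin_cases j <;> simp <;> ring
    · ext i j
      fin_cases i <;> fin_cases j <;> simp [nblk, conjTranspose_apply]
      linear_combination ((β : ℂ) * s * r) * h2
    · ext i j
      fin_cases i <;> fin_cases j <;> simp [nblk]
      ring
    · ext i j
      fin_cases i <;> fin_cases j <;> simp
  rw [Nfun, hF, lift, h1]
  have h4 : g * base 1 * ginv ε g * base 1 + base 1 * (g * base 1 * ginv ε g) -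
      2 * (g * base 1 * ginv ε g * base 1 * (g * base 1 * ginv ε g)) =
      g * (base 1 * Qone ε s r + Qone ε s r * base 1 -
      2 * (base 1 * Qone ε s r * base 1)) * ginv ε g := by
    have h5 : g * base 1 * ginv ε g * base 1 = g * (base 1 * Qone ε s r) * ginv ε g := by
      nth_rewrite 2 [hQ]
      calc g * base 1 * ginv ε g * (g * Qone ε s r * ginv ε g)
          = g * base 1 * (ginv ε g * g) * Qone ε s r * ginv ε g := by noncomm_ring
        _ = _ := by rw [hgg]; noncomm_ring
    have h6 : base 1 * (g * base 1 * ginv ε g) = g * (Qone ε s r * base 1) * ginv ε g := by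
      nth_rewrite 1 [hQ]
      calc g * Qone ε s r * ginv ε g * (g * base 1 * ginv ε g)
          = g * Qone ε s r * (ginv ε g * g) * base 1 * ginv ε g := by noncomm_ring
        _ = _ := by rw [hgg]; noncomm_ring
    rw [h5, h6]
    calc g * (base 1 * Qone ε s r) * ginv ε g + g * (Qone ε s r * base 1) * ginv ε g -
          2 * (g * (base 1 * Qone ε s r) * ginv ε g * (g * base 1 * ginv ε g))
        = g * (base 1 * Qone ε s r) * ginv ε g + g * (Qone ε s r * base 1) * ginv ε g -
          2 * (g * (base 1 * Qone ε s r) * (ginv ε g * g) * base 1 * ginv ε g) := by noncomm_ring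
      _ = _ := by rw [hgg]; noncomm_ring
  rw [h4]
  simp only [mul_smul_comm, smul_mul_assoc]

end Param

end Pool.Agent.GrassHyp67
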