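import Pool.Agent.helper67.GrassHyp.Exist

/-!
# Geodesic spheres in the case `m = 1`: the nullity condition
-/

set_option autoImplicit false

open Matrix Set
open scoped Matrix.Norms.Elementwise ContDiff

namespace Pool.Agent.GrassHyp67

section Param

variable {ε c s r β : ℝ}

/-- The trace of `F Q` is constant. -/
theorem trace_const (hε : ε * ε = 1) (hsr : ε * s ^ 2 + r ^ 2 = 1) {x : Coord 1} (hx : x ∈ Dom) :
    (Ffun ε s r x * base 1).trace = 1 + (r : ℂ) ^ 2 := by
  set g := gfun ε s r x with hg
  have hgg : ginv ε g * g = 1 := ginv_mul hε (gfun_form hε hsr hx)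
  have hQ := base_eq (ε := ε) (s := s) (r := r) hε hsr hx
  rw [← hg] at hQ
  have h1 : (Ffun ε s r x * base 1).trace = (base 1 * Qone ε s r).trace := by
    rw [Ffun, ← hg]
    nth_rewrite 2 [hQ]
    calc (g * base 1 * ginv ε g * (g * Qone ε s r * ginv ε g)).trace
        = (g * (base 1 * (ginv ε g * g) * Qone ε s r * ginv ε g)).trace :=
          congrArg Matrix.trace (by noncomm_ring)
      _ = (base 1 * (ginv ε g * g) * Qone ε s r * ginv ε g * g).trace := Matrix.trace_mul_comm _ _
      _ = (base 1 * (ginv ε g * g) * Qone ε s r * (ginv ε g * g)).trace :=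
          congrArg Matrix.trace (by noncomm_ring)
      _ = _ := by rw [hgg, mul_one, mul_one]
  rw [h1, base, Qone, Matrix.fromBlocks_multiply, trace_blocks]
  simp [Matrix.trace, Fin.sum_univ_two]

theorem tangent_normal' {P Q : Mat 1} (hP : P * P = P) (hPs : Pᴴ * form ε 1 = form ε 1 * P)
    (hQs : Qᴴ * form ε 1 = form ε 1 * Q) :
    IsTangent ε P (β • (P * Q + Q * P - 2 * (P * Q * P))) := by
  have h1 : IsTangent ε P (P * Q + Q * P - 2 * (P * Q * P)) := by
    constructor
    · have h2 : (P * Q + Q * P - 2 * (P * Q * P))ᴴ =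
          Qᴴ * Pᴴ + Pᴴ * Qᴴ - 2 * (Pᴴ * Qᴴ * Pᴴ) := by
        rw [conjTranspose_sub, conjTranspose_add, two_mul, two_mul, conjTranspose_add]
        simp only [conjTranspose_mul]
        noncomm_ring
      have a1 : Qᴴ * Pᴴ * form ε 1 = form ε 1 * (Q * P) := by
        rw [mul_assoc, hPs, ← mul_assoc, hQs, mul_assoc]
      have a2 : Pᴴ * Qᴴ * form ε 1 = form ε 1 * (P * Q) := by
        rw [mul_assoc, hQs, ← mul_assoc, hPs, mul_assoc]
      have a3 : Pᴴ * Qᴴ * Pᴴ * form ε 1 = form ε 1 * (P * Q * P) := by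
        rw [mul_assoc, hPs, ← mul_assoc, a2]
        simp only [mul_assoc]
      rw [h2, sub_mul, add_mul, a1, a2, mul_assoc 2, a3]
      noncomm_ring
    · calc P * (P * Q + Q * P - 2 * (P * Q * P)) + (P * Q + Q * P - 2 * (P * Q * P)) * P
          = (P * P) * Q + P * Q * P - 2 * ((P * P) * Q * P) + P * Q * P + Q * (P * P) -
            2 * (P * Q * (P * P)) := by noncomm_ring
        _ = _ := by rw [hP]; noncomm_ring
  exact h1.smul β

theorem base_selfadj : (base 1)ᴴ * form ε 1 = form ε 1 * base 1 := by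
  rw [base_conj, base_form]

theorem fderiv_Ffun_trace (hε : ε * ε = 1) (hsr : ε * s ^ 2 + r ^ 2 = 1) {x : Coord 1}
    (hx : x ∈ Dom) (u : Coord 1) : (fderiv ℝ (Ffun ε s r) x u * base 1).trace.re = 0 := by
  have h1 := fderiv_lin (V := Mat 1) (W := ℝ) (fun M => (M * base 1).trace.re)
    (fun X Y => by rw [add_mul, Matrix.trace_add, Complex.add_re])
    (fun a X => by rw [smul_mul_assoc, Matrix.trace_smul]; simp)
    (diff_Ffun (ε := ε) (s := s) (r := r) hx) u
  have h2 := fderiv_congr_on Metric.isOpen_ball (V := ℝ) (f := fun y =>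
    (Ffun ε s r y * base 1).trace.re) (g := fun _ => (1 + (r : ℂ) ^ 2).re)
    (fun y hy => congrArg Complex.re (trace_const hε hsr hy)) hx u
  exact h1.symm.trans (h2.trans (by simp))

theorem tangent_Ffun (hε : ε * ε = 1) (hsr : ε * s ^ 2 + r ^ 2 = 1) {x : Coord 1} (hx : x ∈ Dom)
    (u : Coord 1) : fderiv ℝ (Ffun ε s r) x u * Ffun ε s r x +
      Ffun ε s r x * fderiv ℝ (Ffun ε s r) x u = fderiv ℝ (Ffun ε s r) x u := by
  have hd := diff_Ffun (ε := ε) (s := s) (r := r) hx
  have h1 := fderiv_congr_on Metric.isOpen_ball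
    (fun y hy => space_idem hε (Ffun_mem (s := s) (r := r) hε hsr hy)) hx u
  have h2 := (fderiv_mul_mat hd hd).2 u
  exact h2.symm.trans h1

theorem isHypersurface (hε : ε * ε = 1) (hsr : ε * s ^ 2 + r ^ 2 = 1) (hs : s ≠ 0) (hr : r ≠ 0)
    (hβ : 2 * c * (β * s * r) ^ 2 = 1) :
    IsHypersurface ε c 1 Dom (Ffun ε s r) (Nfun ε s r β) where
  isOpen := Metric.isOpen_ball
  isConnected := ⟨⟨0, by simp [Dom]⟩, (convex_ball (0 : Coord 1) (1 / 2)).isPreconnected⟩
  smooth := contDiffOn_Ffun
  mem := fun x hx => Ffun_mem hε hsr hx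
  immersion := fun x hx => Ffun_injective hε hsr hs hr hx
  smooth_normal := contDiffOn_Nfun
  tangent_normal := fun x hx =>
    tangent_normal' (space_idem hε (Ffun_mem hε hsr hx)) (space_selfadj hε (Ffun_mem hε hsr hx))
      base_selfadj
  unit_normal := fun x hx => by
    have hg := gfun_form (ε := ε) (s := s) (r := r) hε hsr hx
    rw [Nfun_eq hε hsr hx, metric_lift hε (lift_tangent hε hg (Ffun_g hε hsr hx) _).1,
      blk_lift hε hg, ipb_self]
    simp only [nblk, Fin.sum_univ_two, Fin.sum_univ_one]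
    simp only [Matrix.of_apply, Matrix.cons_val_zero, Matrix.cons_val_one, Matrix.cons_val_fin_one,
      norm_zero, Complex.norm_real, Real.norm_eq_abs, sq_abs]
    linear_combination hβ + 2 * c * (β * s * r) ^ 2 * hε
  orthogonal_normal := fun x hx u => by
    change metric ε c (fderiv ℝ (Ffun ε s r) x u) (Nfun ε s r β x) = 0
    have hX := tangent_Ffun (s := s) (r := r) hε hsr hx u
    have hPP := space_idem hε (Ffun_mem (s := s) (r := r) hε hsr hx)
    have ht := fderiv_Ffun_trace (s := s) (r := r) hε hsr hx u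
    set X := fderiv ℝ (Ffun ε s r) x u with hXd
    set P := Ffun ε s r x with hP
    have hX' : P * X + X * P = X := by rw [add_comm]; exact hX
    have h0 := tangent_PXP hPP hX'
    have h1 : (X * (P * base 1 + base 1 * P - 2 * (P * base 1 * P))).trace = (X * base 1).trace := by
      have e1 : (X * (base 1 * P)).trace = (P * X * base 1).trace := by
        rw [← mul_assoc, Matrix.trace_mul_comm, mul_assoc]
      have e2 : (X * (P * base 1 * P)).trace = 0 := by
        calc (X * (P * base 1 * P)).trace = ((X * P * base 1) * P).trace :=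
              congrArg Matrix.trace (by noncomm_ring)
          _ = (P * (X * P * base 1)).trace := Matrix.trace_mul_comm _ _
          _ = (P * X * P * base 1).trace := congrArg Matrix.trace (by noncomm_ring)
          _ = 0 := by rw [h0]; simp
      have e3 : X * (P * base 1 + base 1 * P - 2 * (P * base 1 * P)) =
          X * P * base 1 + X * (base 1 * P) - (X * (P * base 1 * P) + X * (P * base 1 * P)) := by
        noncomm_ring
      rw [e3, Matrix.trace_sub, Matrix.trace_add, Matrix.trace_add, e1, e2, ← Matrix.trace_add,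
        ← add_mul, hX]
      ring
    rw [metric_comm, Nfun, ← hP, metric_smul_left, metric_comm, metric, h1, ht]
    simp

end Param

end Pool.Agent.GrassHyp67
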