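import Pool.Agent.helper67.GrassHyp.Exist2

/-!
# Geodesic spheres in the case `m = 1`: the nullity condition, continued
-/

set_option autoImplicit false

open Matrix Set
open scoped Matrix.Norms.Elementwise ContDiff

namespace Pool.Agent.GrassHyp67

section Param

variable {ε c s r β : ℝ}

/-- The curvature identity for `m = 1`. -/
theorem curv_identity (hc : c ≠ 0) (x y z : Blk 1) (hx : (x 0 1).re = 0) (hy : (y 0 1).re = 0)
    (hz : (z 0 1).re = 0) (ν : ℝ) (w : Blk 1) (hw0 : w 0 0 = 0) (hw1 : w 0 1 = -(Complex.I * ν)) :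
    c * ε * (((xᴴ * y - yᴴ * x) * (wᴴ * z - zᴴ * w)).trace.re +
      ((x * yᴴ - y * xᴴ) * (w * zᴴ - z * wᴴ)).trace.re) =
    ε / (2 * c) * (ipb c y w * ipb c x z - ipb c x w * ipb c y z) := by
  simp only [ipb, Matrix.trace, Matrix.diag, Matrix.mul_apply, Matrix.sub_apply,
    conjTranspose_apply, Fin.sum_univ_two, Fin.sum_univ_one, hw0, hw1, Complex.star_def]
  simp only [Complex.add_re, Complex.sub_re, Complex.mul_re, Complex.sub_im, Complex.mul_im,
    Complex.add_im, Complex.conj_re, Complex.conj_im, Complex.neg_re, Complex.neg_im,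
    Complex.I_re, Complex.I_im, Complex.ofReal_re, Complex.ofReal_im, Complex.zero_re,
    Complex.zero_im, hx, hy, hz, map_zero]
  field_simp
  ring

/-- The derivative of the unit normal in block coordinates. -/
theorem blk_fderiv_normal (hε : ε * ε = 1) (hsr : ε * s ^ 2 + r ^ 2 = 1) {x : Coord 1}
    (hx : x ∈ Dom) (u : Coord 1) (y : Blk 1)
    (hy : fderiv ℝ (Ffun ε s r) x u = lift ε (gfun ε s r x) y) :
    blk ε (gfun ε s r x) (fderiv ℝ (Nfun ε s r β) x u) =
      β • (!![(ε : ℂ) * s ^ 2] * y - y * !![1, 0; 0, (r : ℂ) ^ 2]) := by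
  have hd := diff_Ffun (ε := ε) (s := s) (r := r) hx
  have hPP := fun y (hy : y ∈ Dom) => space_idem hε (Ffun_mem (s := s) (r := r) hε hsr hy)
  set f : Mat 1 → Mat 1 → Mat 1 := fun M M' =>
    β • (M * M' * base 1 + base 1 * (M * M') - 2 * (M * base 1 * M')) with hf
  have h1 := fderiv_congr_on (V := Mat 1) Metric.isOpen_ball (f := Nfun ε s r β)
    (g := fun y => f (Ffun ε s r y) (Ffun ε s r y)) (fun y hy => by
      rw [hf, Nfun]
      simp only
      rw [hPP y hy]) hx u
  have h2 := (fderiv_bil (V := Mat 1) (W := Mat 1) (Z := Mat 1) f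
    (fun X Y Z => by
      simp only [hf, add_mul, mul_add, smul_add, smul_sub]
      abel)
    (fun a X Y => by
      simp only [hf, smul_mul_assoc, mul_smul_comm, ← smul_add, ← smul_sub]
      rw [smul_comm])
    (fun X Y Z => by
      simp only [hf, add_mul, mul_add, smul_add, smul_sub]
      abel)
    (fun a X Y => by
      simp only [hf, smul_mul_assoc, mul_smul_comm, ← smul_add, ← smul_sub]
      rw [smul_comm]) hd hd).2 u
  have h3 : fderiv ℝ (Nfun ε s r β) x u = f (lift ε (gfun ε s r x) y) (Ffun ε s r x) +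
      f (Ffun ε s r x) (lift ε (gfun ε s r x) y) := by
    rw [← hy]
    exact h1.trans h2
  set g := gfun ε s r x with hg
  have hgg : ginv ε g * g = 1 := ginv_mul hε (gfun_form hε hsr hx)
  have hQ := base_eq (ε := ε) (s := s) (r := r) hε hsr hx
  rw [← hg] at hQ
  have cm : ∀ A B : Mat 1, (g * A * ginv ε g) * (g * B * ginv ε g) = g * (A * B) * ginv ε g := by
    intro A B
    calc (g * A * ginv ε g) * (g * B * ginv ε g) = g * A * (ginv ε g * g) * B * ginv ε g := by
          noncomm_ring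
      _ = _ := by rw [hgg]; noncomm_ring
  have hF : Ffun ε s r x = g * base 1 * ginv ε g := rfl
  have fcm : ∀ A B : Mat 1, f (g * A * ginv ε g) (g * B * ginv ε g) =
      g * (β • (A * B * Qone ε s r + Qone ε s r * (A * B) - 2 * (A * Qone ε s r * B))) *
        ginv ε g := by
    intro A B
    have e : f (g * A * ginv ε g) (g * B * ginv ε g) =
      β • ((g * A * ginv ε g) * (g * B * ginv ε g) * (g * Qone ε s r * ginv ε g) +
        (g * Qone ε s r * ginv ε g) * ((g * A * ginv ε g) * (g * B * ginv ε g)) -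
        2 * ((g * A * ginv ε g) * (g * Qone ε s r * ginv ε g) * (g * B * ginv ε g))) := by
      rw [← hQ]
    rw [e]
    simp only [cm]
    rw [mul_smul_comm, smul_mul_assoc]
    congr 1
    noncomm_ring
  have h4 : ginv ε g * fderiv ℝ (Nfun ε s r β) x u * g =
      β • (tvec ε y * base 1 * Qone ε s r + Qone ε s r * (tvec ε y * base 1) -
        2 * (tvec ε y * Qone ε s r * base 1)) +
      β • (base 1 * tvec ε y * Qone ε s r + Qone ε s r * (base 1 * tvec ε y) -
        2 * (base 1 * Qone ε s r * tvec ε y)) := by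
    rw [h3, hF, lift, fcm, fcm]
    set A := β • (tvec ε y * base 1 * Qone ε s r + Qone ε s r * (tvec ε y * base 1) -
        2 * (tvec ε y * Qone ε s r * base 1))
    set B := β • (base 1 * tvec ε y * Qone ε s r + Qone ε s r * (base 1 * tvec ε y) -
        2 * (base 1 * Qone ε s r * tvec ε y))
    calc ginv ε g * (g * A * ginv ε g + g * B * ginv ε g) * g
        = (ginv ε g * g) * A * (ginv ε g * g) + (ginv ε g * g) * B * (ginv ε g * g) := by
          noncomm_ring
      _ = _ := by rw [hgg]; noncomm_ring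
  have h5 : (2 : Mat 1) = (2 : ℂ) • (1 : Mat 1) := by
    rw [two_smul]; norm_num
  rw [blk, h4, h5, smul_mul_assoc, smul_mul_assoc, one_mul, one_mul]
  simp only [tvec, base, Qone, Matrix.fromBlocks_multiply, Matrix.fromBlocks_add,
    sub_eq_add_neg, Matrix.fromBlocks_neg, Matrix.fromBlocks_smul, Matrix.toBlocks_fromBlocks₂₁]
  simp only [Matrix.mul_zero, Matrix.mul_one, Matrix.zero_mul, add_zero, zero_add,
    smul_zero, neg_zero]
  congr 1
  rw [two_smul]
  abel

/-- The frame of `su(2)`. -/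
noncomputable def uu : Fin 3 → Matrix (Fin 2) (Fin 2) ℂ :=
  ![!![-Complex.I, 0; 0, Complex.I], !![0, 1; -1, 0], !![0, Complex.I; Complex.I, 0]]

theorem uu_skew (j : Fin 3) : (uu j)ᴴ = -uu j := by
  ext a b
  fin_cases j <;> fin_cases a <;> fin_cases b <;> simp [uu, conjTranspose_apply]

theorem uu_trace (j : Fin 3) : (uu j).trace = 0 := by
  fin_cases j <;> simp [uu, Matrix.trace, Fin.sum_univ_two]

theorem uu_sq (j : Fin 3) : uu j * uu j = -1 := by
  fin_cases j
  · ext a b
    fin_cases a <;> fin_cases b <;> simp [uu, Matrix.mul_apply, Fin.sum_univ_two]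
  · ext a b
    fin_cases a <;> fin_cases b <;> simp [uu, Matrix.mul_apply, Fin.sum_univ_two]
  · ext a b
    fin_cases a <;> fin_cases b <;> simp [uu, Matrix.mul_apply, Fin.sum_univ_two]

theorem uu_mul (j : Fin 3) : uu (j + 1) * uu j = uu (j + 2) := by
  fin_cases j
  · change uu 1 * uu 0 = uu 2
    ext a b
    fin_cases a <;> fin_cases b <;> simp [uu, Matrix.mul_apply, Fin.sum_univ_two]
  · change uu 2 * uu 1 = uu 0
    ext a b
    fin_cases a <;> fin_cases b <;> simp [uu, Matrix.mul_apply, Fin.sum_univ_two]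
  · change uu 0 * uu 2 = uu 1
    ext a b
    fin_cases a <;> fin_cases b <;> simp [uu, Matrix.mul_apply, Fin.sum_univ_two]

/-- The frame along the hypersurface. -/
noncomputable def Ufun (ε s r : ℝ) (j : Fin 3) (x : Coord 1) : Mat 1 :=
  gfun ε s r x * Matrix.fromBlocks (uu j) 0 0 0 * ginv ε (gfun ε s r x)

theorem isQuat_Ufun (hε : ε * ε = 1) (hsr : ε * s ^ 2 + r ^ 2 = 1) {x : Coord 1} (hx : x ∈ Dom)
    (j : Fin 3) : IsQuat ε (Ffun ε s r x) (Ufun ε s r j x) := by
  set g := gfun ε s r x with hg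
  have hgg : ginv ε g * g = 1 := ginv_mul hε (gfun_form hε hsr hx)
  have cm : ∀ A B : Mat 1, (g * A * ginv ε g) * (g * B * ginv ε g) = g * (A * B) * ginv ε g := by
    intro A B
    calc (g * A * ginv ε g) * (g * B * ginv ε g) = g * A * (ginv ε g * g) * B * ginv ε g := by
          noncomm_ring
      _ = _ := by rw [hgg]; noncomm_ring
  have hF : Ffun ε s r x = g * base 1 * ginv ε g := rfl
  set U₀ : Mat 1 := Matrix.fromBlocks (uu j) 0 0 0 with hU₀
  have hU : Ufun ε s r j x = g * U₀ * ginv ε g := rfl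
  have h0 : U₀ᴴ * form ε 1 = -(form ε 1 * U₀) := by
    rw [hU₀]
    simp [form, Matrix.fromBlocks_conjTranspose, Matrix.fromBlocks_multiply,
      Matrix.fromBlocks_neg, uu_skew]
  refine ⟨?_, ?_, ?_, ?_⟩
  · rw [hF, hU, cm]
    congr 2
    simp [hU₀, base, Matrix.fromBlocks_multiply]
  · rw [hF, hU, cm]
    congr 2
    simp [hU₀, base, Matrix.fromBlocks_multiply]
  · rw [hU, conjTranspose_mul, conjTranspose_mul]
    calc (ginv ε g)ᴴ * (U₀ᴴ * gᴴ) * form ε 1 = (ginv ε g)ᴴ * U₀ᴴ * (gᴴ * form ε 1) := by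
          noncomm_ring
      _ = (ginv ε g)ᴴ * (U₀ᴴ * form ε 1) * ginv ε g := by rw [conj_ginv hε]; noncomm_ring
      _ = -((ginv ε g)ᴴ * form ε 1 * U₀ * ginv ε g) := by rw [h0]; noncomm_ring
      _ = -(form ε 1 * (g * U₀ * ginv ε g)) := by rw [ginv_conj hε]; noncomm_ring
  · rw [hU, Matrix.trace_mul_comm, ← mul_assoc, hgg, one_mul, hU₀, trace_blocks, uu_trace]
    simp

theorem ublk_Ufun (hε : ε * ε = 1) (hsr : ε * s ^ 2 + r ^ 2 = 1) {x : Coord 1} (hx : x ∈ Dom)
    (j : Fin 3) : ublk ε (gfun ε s r x) (Ufun ε s r j x) = uu j := by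
  set g := gfun ε s r x with hg
  have hgg : ginv ε g * g = 1 := ginv_mul hε (gfun_form hε hsr hx)
  have h : ginv ε g * Ufun ε s r j x * g = Matrix.fromBlocks (uu j) 0 0 0 := by
    rw [Ufun, ← hg]
    calc ginv ε g * (g * fromBlocks (uu j) 0 0 0 * ginv ε g) * g
        = (ginv ε g * g) * fromBlocks (uu j) 0 0 0 * (ginv ε g * g) := by noncomm_ring
      _ = _ := by rw [hgg]; noncomm_ring
  rw [ublk, h]
  simp

theorem isFrame_Ufun (hε : ε * ε = 1) (hsr : ε * s ^ 2 + r ^ 2 = 1) {x : Coord 1}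
    (hx : x ∈ Dom) : IsFrame ε (Ffun ε s r x) fun j => Ufun ε s r j x := by
  have hg := gfun_form (ε := ε) (s := s) (r := r) hε hsr hx
  have hP := Ffun_g (s := s) (r := r) hε hsr hx
  refine ⟨fun j => isQuat_Ufun hε hsr hx j, fun X hX => ?_⟩
  have hl := lift_blk hε hg hP hX
  have hq : ∀ j y, quat (Ufun ε s r j x) (lift ε (gfun ε s r x) y) =
      lift ε (gfun ε s r x) (y * uu j) := by
    intro j y
    rw [quat_lift hε hg hP (isQuat_Ufun hε hsr hx j), ublk_Ufun hε hsr hx]
  constructor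
  · intro i
    simp only
    rw [← hl, hq, hq, Matrix.mul_assoc, uu_sq, Matrix.mul_neg, Matrix.mul_one, lift_neg']
  · intro i
    simp only
    rw [← hl, hq, hq, hq, Matrix.mul_assoc, uu_mul]

theorem contDiffOn_Ufun (j : Fin 3) : ContDiffOn ℝ ∞ (Ufun ε s r j) Dom :=
  contDiffOn_mul_mat (contDiffOn_mul_mat contDiffOn_gfun contDiffOn_const)
    (contDiffOn_ginv contDiffOn_gfun)

end Param

end Pool.Agent.GrassHyp67
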