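import Pool.Agent.helper67.GrassHyp.Defs

/-!
# The Gauss equation for a map into a vector space with a symmetric bilinear form
-/

set_option autoImplicit false

open Set
open scoped ContDiff

namespace Pool.Agent.GrassHyp67

section Gauss

variable {E V : Type*} [NormedAddCommGroup E] [NormedSpace ℝ E]
  [NormedAddCommGroup V] [NormedSpace ℝ V]

/-- The second derivative. -/
noncomputable def snd (F : E → V) (x : E) : E →L[ℝ] E →L[ℝ] V := fderiv ℝ (fderiv ℝ F) x

/-- The second fundamental form. -/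
noncomputable def sff (F : E → V) (Γ : E → E →L[ℝ] E →L[ℝ] E) (x u v : E) : V :=
  snd F x u v - fderiv ℝ F x (Γ x u v)

theorem two_le : minSmoothness ℝ 2 ≤ (∞ : WithTop ℕ∞) := by
  rw [minSmoothness_of_isRCLikeNormedField]
  have h : ((2 : ℕ∞) : WithTop ℕ∞) ≤ ((⊤ : ℕ∞) : WithTop ℕ∞) := WithTop.coe_le_coe.2 le_top
  exact h

variable {Ω : Set E} (hΩ : IsOpen Ω) {F : E → V} (hF : ContDiffOn ℝ ∞ F Ω)
  {B : V →L[ℝ] V →L[ℝ] ℝ} (hB : ∀ a b, B a b = B b a)
  {Γ : E → E →L[ℝ] E →L[ℝ] E}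

include hΩ hF in
theorem contDiffAt_F {x : E} (hx : x ∈ Ω) : ContDiffAt ℝ ∞ F x :=
  (hF x hx).contDiffAt (hΩ.mem_nhds hx)

include hΩ hF in
theorem contDiffAt_fst {x : E} (hx : x ∈ Ω) : ContDiffAt ℝ ∞ (fderiv ℝ F) x :=
  (contDiffAt_F hΩ hF hx).fderiv_right (m := ∞) (by simp)

include hΩ hF in
theorem contDiffAt_snd {x : E} (hx : x ∈ Ω) : ContDiffAt ℝ ∞ (snd F) x :=
  (contDiffAt_fst hΩ hF hx).fderiv_right (m := ∞) (by simp)

include hΩ hF in
theorem snd_symm {x : E} (hx : x ∈ Ω) (u v : E) : snd F x u v = snd F x v u :=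
  ((contDiffAt_F hΩ hF hx).isSymmSndFDerivAt two_le) u v

include hΩ hF in
theorem trd_symm {x : E} (hx : x ∈ Ω) (u v : E) :
    fderiv ℝ (snd F) x u v = fderiv ℝ (snd F) x v u :=
  ((contDiffAt_fst hΩ hF hx).isSymmSndFDerivAt two_le) u v

include hΩ hF in
theorem fderiv_fst {x : E} (hx : x ∈ Ω) (v : E) :
    HasFDerivAt (fun y => fderiv ℝ F y v) ((snd F x).flip v) x := by
  have h := ((contDiffAt_fst hΩ hF hx).differentiableAt (by simp)).hasFDerivAt
  have h2 := h.clm_apply (hasFDerivAt_const v x)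
  refine h2.congr_fderiv ?_
  ext u
  simp [snd]

include hΩ hF in
theorem fderiv_snd {x : E} (hx : x ∈ Ω) (v w : E) :
    HasFDerivAt (fun y => snd F y v w) (((fderiv ℝ (snd F) x).flip v).flip w) x := by
  have h := ((contDiffAt_snd hΩ hF hx).differentiableAt (by simp)).hasFDerivAt
  have h2 := (h.clm_apply (hasFDerivAt_const v x)).clm_apply (hasFDerivAt_const w x)
  refine h2.congr_fderiv ?_
  ext u
  simp

/-- The induced metric. -/
noncomputable def ind (B : V →L[ℝ] V →L[ℝ] ℝ) (F : E → V) (x u v : E) : ℝ :=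
  B (fderiv ℝ F x u) (fderiv ℝ F x v)

include hΩ hF in
theorem fderiv_ind {x : E} (hx : x ∈ Ω) (v w : E) (u : E) :
    fderiv ℝ (fun y => ind B F y v w) x u =
      B (snd F x u v) (fderiv ℝ F x w) + B (fderiv ℝ F x v) (snd F x u w) := by
  have h1 := fderiv_fst hΩ hF hx v
  have h2 := fderiv_fst hΩ hF hx w
  have h3 := (B.hasFDerivAt.comp x h1).clm_apply h2
  have h4 : fderiv ℝ (fun y => ind B F y v w) x = _ := h3.fderiv
  rw [h4]
  simp
  ring

include hΩ hF hB in
theorem sff_orth (hΓ : IsLeviCivita Ω (ind B F) Γ) {x : E} (hx : x ∈ Ω) (u v w : E) :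
    B (sff F Γ x u v) (fderiv ℝ F x w) = 0 := by
  obtain ⟨hs, hm⟩ := hΓ.2 x hx
  have key : ∀ u v w, B (sff F Γ x u v) (fderiv ℝ F x w) + B (sff F Γ x u w) (fderiv ℝ F x v) = 0 := by
    intro u v w
    have h := hm u v w
    rw [fderiv_ind hΩ hF hx] at h
    simp only [ind] at h
    simp only [sff, map_sub, sub_apply]
    have h5 := hB (fderiv ℝ F x v) (snd F x u w)
    have h6 := hB (fderiv ℝ F x v) (fderiv ℝ F x (Γ x u w))
    linarith
  have sym : ∀ u v, sff F Γ x u v = sff F Γ x v u := by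
    intro u v
    simp only [sff]
    rw [snd_symm hΩ hF hx, hs]
  have k1 := key u v w
  have k2 := key v w u
  have k3 := key w u v
  rw [sym v u] at k2
  rw [sym w v] at k3
  rw [sym w u] at k3
  linarith

include hΩ hF hB in
/-- **The Gauss equation.** -/
theorem gauss (hΓ : IsLeviCivita Ω (ind B F) Γ) {x : E} (hx : x ∈ Ω) (u v w z : E) :
    B (fderiv ℝ F x (riemann Γ x u v w)) (fderiv ℝ F x z) =
      B (sff F Γ x v w) (sff F Γ x u z) - B (sff F Γ x u w) (sff F Γ x v z) := by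
  have hΓd : HasFDerivAt Γ (fderiv ℝ Γ x) x :=
    (((hΓ.1 x hx).contDiffAt (hΩ.mem_nhds hx)).differentiableAt (by simp)).hasFDerivAt
  have hFd : HasFDerivAt (fderiv ℝ F) (snd F x) x :=
    ((contDiffAt_fst hΩ hF hx).differentiableAt (by simp)).hasFDerivAt
  have main : ∀ u v w z, B (fderiv ℝ (snd F) x u v w) (fderiv ℝ F x z) =
      B (fderiv ℝ F x (Γ x u (Γ x v w) + fderiv ℝ Γ x u v w)) (fderiv ℝ F x z) -
        B (sff F Γ x v w) (sff F Γ x u z) := by
    intro u v w z
    have h1 := fderiv_snd hΩ hF hx v w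
    have h2 : HasFDerivAt (fun y => Γ y v w) (((fderiv ℝ Γ x).flip v).flip w) x := by
      have h := (hΓd.clm_apply (hasFDerivAt_const v x)).clm_apply (hasFDerivAt_const w x)
      refine h.congr_fderiv ?_
      ext u
      simp
    have h3 := hFd.clm_apply h2
    have h4 : HasFDerivAt (fun y => sff F Γ y v w) _ x := h1.sub h3
    have h5 := (B.hasFDerivAt.comp x h4).clm_apply (fderiv_fst hΩ hF hx z)
    have h6 : HasFDerivAt (fun y => B (sff F Γ y v w) (fderiv ℝ F y z)) (0 : E →L[ℝ] ℝ) x := by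
      refine (hasFDerivAt_const (0 : ℝ) x).congr_of_eventuallyEq ?_
      filter_upwards [hΩ.mem_nhds hx] with y hy
      exact sff_orth hΩ hF hB hΓ hy v w z
    have h7 := congrArg (fun L : E →L[ℝ] ℝ => L u) (h5.unique h6)
    simp only [add_apply, sub_apply,
      ContinuousLinearMap.coe_comp, Function.comp_apply, ContinuousLinearMap.flip_apply,
      zero_apply, map_add, map_sub] at h7
    have o1 := sff_orth hΩ hF hB hΓ hx u (Γ x v w) z
    have o2 := sff_orth hΩ hF hB hΓ hx v w (Γ x u z)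
    have e1 : B (sff F Γ x v w) (sff F Γ x u z) = B (sff F Γ x v w) (snd F x u z) -
        B (sff F Γ x v w) (fderiv ℝ F x (Γ x u z)) := by
      rw [sff, sff, map_sub, ← sff]
    simp only [sff, map_sub, sub_apply] at o1
    simp only [map_add, add_apply]
    linarith
  have m1 := main u v w z
  have m2 := main v u w z
  rw [trd_symm hΩ hF hx v u] at m2
  simp only [riemann, map_add, map_sub, add_apply,
    sub_apply] at m1 m2 ⊢
  linarith

end Gauss

end Pool.Agent.GrassHyp67
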