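import Pool.Agent.helper67.GrassHyp.Blocks

/-!
# The Gauss equation of a real hypersurface of the symmetric space
-/

set_option autoImplicit false

open Matrix Set
open scoped Matrix.Norms.Elementwise ContDiff

namespace Pool.Agent.GrassHyp67

variable {m : ℕ} {ε c : ℝ} {Ω : Set (Coord m)} {F N : Coord m → Mat m}
  {Γ : Coord m → Coord m →L[ℝ] Coord m →L[ℝ] Coord m}

/-- The second fundamental form of the hypersurface. -/
noncomputable def hform (ε c : ℝ) (F N : Coord m → Mat m) (x u v : Coord m) : ℝ :=
  metric ε c (snd F x u v) (N x)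

/-- The bilinear expression `X Y + Y X`. -/
def sym (X Y : Mat m) : Mat m := X * Y + Y * X

theorem sym_comm_P {P X Y : Mat m} (hX : P * X + X * P = X) (hY : P * Y + Y * P = Y) :
    P * sym X Y = sym X Y * P := by
  have key : ∀ X Y : Mat m, P * X + X * P = X → P * Y + Y * P = Y → P * (X * Y) = X * Y * P := by
    intro X Y hX hY
    have h1 : P * X = X - X * P := eq_sub_of_add_eq hX
    have h2 : P * Y = Y - Y * P := eq_sub_of_add_eq hY
    calc P * (X * Y) = (P * X) * Y := by noncomm_ring
      _ = X * Y - X * (P * Y) := by rw [h1]; noncomm_ring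
      _ = X * Y * P := by rw [h2]; noncomm_ring
  rw [sym, mul_add, add_mul, key X Y hX hY, key Y X hY hX]

theorem tangent_PXP {P X : Mat m} (hP : P * P = P) (hX : P * X + X * P = X) : P * X * P = 0 := by
  have h1 : P * X = X - X * P := eq_sub_of_add_eq hX
  rw [h1, sub_mul, mul_assoc, hP, sub_self]

/-- A tangent matrix is orthogonal to a matrix commuting with `P`. -/
theorem metric_comm_orth {P X Q : Mat m} (hP : P * P = P) (hX : P * X + X * P = X)
    (hQ : P * Q = Q * P) : metric ε c Q X = 0 := by
  have h : (Q * X).trace = 0 := by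
    have h1 : (Q * (P * X)).trace = (Q * (X * P)).trace := by
      calc (Q * (P * X)).trace = ((Q * P) * X).trace := by congr 1; noncomm_ring
        _ = (P * (Q * X)).trace := by rw [← hQ]; congr 1; noncomm_ring
        _ = ((Q * X) * P).trace := Matrix.trace_mul_comm _ _
        _ = _ := by congr 1; noncomm_ring
    have h2 : (Q * (P * X)).trace = (Q * (P * (X * P))).trace + (Q * (P * (P * X))).trace := by
      have h3 : P * X = P * (X * P) + P * (P * X) := by
        calc P * X = P * (P * X + X * P) := by rw [hX]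
          _ = _ := by noncomm_ring
      conv_lhs => rw [h3]
      rw [mul_add, Matrix.trace_add]
    have h4 : P * (X * P) = 0 := by rw [← mul_assoc]; exact tangent_PXP hP hX
    have h5 : (Q * (X * P)).trace = 0 := by
      calc (Q * (X * P)).trace = (Q * (X * (P * P))).trace := by rw [hP]
        _ = ((Q * (X * P)) * P).trace := by congr 1; noncomm_ring
        _ = (P * (Q * (X * P))).trace := Matrix.trace_mul_comm _ _
        _ = ((P * Q) * (X * P)).trace := by congr 1; noncomm_ring
        _ = (Q * (P * (X * P))).trace := by rw [hQ]; congr 1; noncomm_ring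
        _ = 0 := by rw [h4]; simp
    calc (Q * X).trace = (Q * (P * X + X * P)).trace := by rw [hX]
      _ = (Q * (P * X)).trace + (Q * (X * P)).trace := by rw [mul_add, Matrix.trace_add]
      _ = 0 := by rw [h1, h5, add_zero]
  rw [metric, h]
  simp

/-- The trace identity behind the formula for the curvature tensor of the ambient space. -/
theorem trace_identity (X Y Z W : Mat m) :
    (sym Y Z * sym X W).trace - (sym X Z * sym Y W).trace =
      ((X * Y - Y * X) * (Z * W - W * Z)).trace := by
  have e1 : (Y * Z * X * W).trace = (Z * X * W * Y).trace := by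
    rw [show Y * Z * X * W = Y * (Z * X * W) by noncomm_ring, Matrix.trace_mul_comm]
  have e2 : (Z * Y * W * X).trace = (X * Z * Y * W).trace := by
    rw [show X * Z * Y * W = X * (Z * Y * W) by noncomm_ring, Matrix.trace_mul_comm]
  have e3 : (Y * Z * W * X).trace = (X * Y * Z * W).trace := by
    rw [show X * Y * Z * W = X * (Y * Z * W) by noncomm_ring, Matrix.trace_mul_comm]
  have e4 : (Z * Y * X * W).trace = (Y * X * W * Z).trace := by
    rw [show Z * Y * X * W = Z * (Y * X * W) by noncomm_ring, Matrix.trace_mul_comm]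
  have e5 : (X * Z * W * Y).trace = (Y * X * Z * W).trace := by
    rw [show Y * X * Z * W = Y * (X * Z * W) by noncomm_ring, Matrix.trace_mul_comm]
  have e6 : (Z * X * Y * W).trace = (X * Y * W * Z).trace := by
    rw [show Z * X * Y * W = Z * (X * Y * W) by noncomm_ring, Matrix.trace_mul_comm]
  have l1 : sym Y Z * sym X W = Y * Z * X * W + Y * Z * W * X + Z * Y * X * W + Z * Y * W * X := by
    simp only [sym]; noncomm_ring
  have l2 : sym X Z * sym Y W = X * Z * Y * W + X * Z * W * Y + Z * X * Y * W + Z * X * W * Y := by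
    simp only [sym]; noncomm_ring
  have l3 : (X * Y - Y * X) * (Z * W - W * Z) =
      X * Y * Z * W - X * Y * W * Z - Y * X * Z * W + Y * X * W * Z := by noncomm_ring
  rw [l1, l2, l3]
  simp only [Matrix.trace_add, Matrix.trace_sub]
  rw [e1, e2, e3, e4, e5, e6]
  ring

/-- The decomposition of the second fundamental form. -/
theorem sff_eq (hε : ε * ε = 1) (hc : 0 < c) (hm : 1 ≤ m) (h : IsHypersurface ε c m Ω F N)
    (hΓ : IsLeviCivita Ω (induced ε c F) Γ) {x : Coord m} (hx : x ∈ Ω) (u v : Coord m) :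
    sff F Γ x u v = hform ε c F N x u v • N x +
      (1 - 2 * F x) * sym (fderiv ℝ F x u) (fderiv ℝ F x v) := by
  obtain ⟨B, hB⟩ := exists_metricC ε c m
  have hind : ind B F = induced ε c F := by
    funext x u v
    exact hB _ _
  have hBs : ∀ a b : Mat m, B a b = B b a := fun a b => by rw [hB, hB, metric_comm]
  have hΓ' : IsLeviCivita Ω (ind B F) Γ := by rw [hind]; exact hΓ
  have horth : ∀ w, metric ε c (sff F Γ x u v) (fderiv ℝ F x w) = 0 := fun w => by
    rw [← hB]
    exact sff_orth h.isOpen h.smooth' hBs hΓ' hx u v w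
  set P := F x with hP
  have hPP : P * P = P := space_idem hε (h.mem x hx)
  have hPs := space_selfadj hε (h.mem x hx)
  rw [← hP] at hPs
  have hu := tangent_fst hε h hx u
  have hv := tangent_fst hε h hx v
  rw [← hP] at hu hv
  set X := fderiv ℝ F x u with hX
  set Y := fderiv ℝ F x v with hY
  obtain ⟨hs1, hs2⟩ := snd_eq hε h hx u v
  rw [← hX, ← hY, ← hP] at hs2
  set D : Mat m := snd F x u v with hD
  have hQ := sym_comm_P hu.2 hv.2
  have hQ' : X * Y + Y * X = sym X Y := rfl
  rw [hQ'] at hs2
  have hsa : (sym X Y)ᴴ * form ε m = form ε m * sym X Y := by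
    simp only [sym, conjTranspose_add, conjTranspose_mul, add_mul, mul_add]
    rw [mul_assoc, hu.1, ← mul_assoc, hv.1, mul_assoc Xᴴ, hv.1, ← mul_assoc Xᴴ, hu.1]
    noncomm_ring
  have hT : IsTangent ε P (D - (1 - 2 * P) * sym X Y) := by
    constructor
    · rw [conjTranspose_sub, sub_mul, hs1, conjTranspose_mul]
      have h2 : ((1 : Mat m) - 2 * P)ᴴ = 1 - 2 * Pᴴ := by
        rw [conjTranspose_sub, conjTranspose_one, two_mul, two_mul, conjTranspose_add]
      have h3 : (sym X Y)ᴴ * (1 - 2 * Pᴴ) * form ε m = form ε m * ((1 - 2 * P) * sym X Y) := by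
        calc (sym X Y)ᴴ * (1 - 2 * Pᴴ) * form ε m
            = (sym X Y)ᴴ * form ε m - 2 * (sym X Y)ᴴ * (Pᴴ * form ε m) := by noncomm_ring
          _ = (sym X Y)ᴴ * form ε m - 2 * ((sym X Y)ᴴ * form ε m) * P := by rw [hPs]; noncomm_ring
          _ = form ε m * (sym X Y - 2 * (sym X Y * P)) := by rw [hsa]; noncomm_ring
          _ = _ := by rw [← hQ]; noncomm_ring
      rw [h2, h3, mul_sub]
    · have h4 : P * (D - (1 - 2 * P) * sym X Y) + (D - (1 - 2 * P) * sym X Y) * P =
          (P * D + D * P + sym X Y) - sym X Y - P * sym X Y + 2 * (P * P) * sym X Y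
            - (sym X Y * P) + 2 * P * (sym X Y * P) := by noncomm_ring
      rw [h4, ← hs2, hPP, ← hQ]
      calc D - sym X Y - P * sym X Y + 2 * P * sym X Y - P * sym X Y + 2 * P * (P * sym X Y)
          = D - sym X Y + 2 * (P * P) * sym X Y := by noncomm_ring
        _ = _ := by rw [hPP]; noncomm_ring
  have hT2 : IsTangent ε P (D - (1 - 2 * P) * sym X Y - fderiv ℝ F x (Γ x u v)) :=
    hT.sub (tangent_fst hε h hx _)
  have hcomm : P * ((1 - 2 * P) * sym X Y) = (1 - 2 * P) * sym X Y * P := by
    calc P * ((1 - 2 * P) * sym X Y) = (1 - 2 * P) * (P * sym X Y) := by noncomm_ring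
      _ = _ := by rw [hQ]; noncomm_ring
  have hsff : sff F Γ x u v = D - fderiv ℝ F x (Γ x u v) := rfl
  have ho : ∀ z, metric ε c (D - (1 - 2 * P) * sym X Y - fderiv ℝ F x (Γ x u v))
      (fderiv ℝ F x z) = 0 := by
    intro z
    have h5 := horth z
    rw [hsff, metric_sub_left] at h5
    have h6 : metric ε c ((1 - 2 * P) * sym X Y) (fderiv ℝ F x z) = 0 :=
      metric_comm_orth hPP (tangent_fst hε h hx z).2 hcomm
    rw [metric_sub_left, metric_sub_left, h6]
    linarith
  have h7 := normal_of_orth hε hc hm h hx hT2 ho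
  have h8 : metric ε c (D - (1 - 2 * P) * sym X Y - fderiv ℝ F x (Γ x u v)) (N x) =
      hform ε c F N x u v := by
    have h9 : metric ε c ((1 - 2 * P) * sym X Y) (N x) = 0 :=
      metric_comm_orth hPP (h.tangent_normal x hx).2 hcomm
    rw [metric_sub_left, metric_sub_left, h9, h.orthogonal_normal' x hx, hform]
    ring
  rw [h8] at h7
  rw [hsff, ← h7]
  abel

/-- **The Gauss equation** of a real hypersurface. -/
theorem gauss_eq (hε : ε * ε = 1) (hc : 0 < c) (hm : 1 ≤ m) (h : IsHypersurface ε c m Ω F N)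
    (hΓ : IsLeviCivita Ω (induced ε c F) Γ) {x : Coord m} (hx : x ∈ Ω) (u v w z : Coord m) :
    metric ε c (fderiv ℝ F x (riemann Γ x u v w)) (fderiv ℝ F x z) =
      hform ε c F N x v w * hform ε c F N x u z - hform ε c F N x u w * hform ε c F N x v z +
      metric ε c
        (fderiv ℝ F x u * fderiv ℝ F x v - fderiv ℝ F x v * fderiv ℝ F x u)
        (fderiv ℝ F x w * fderiv ℝ F x z - fderiv ℝ F x z * fderiv ℝ F x w) := by
  obtain ⟨B, hB⟩ := exists_metricC ε c m
  have hind : ind B F = induced ε c F := by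
    funext x u v
    exact hB _ _
  have hBs : ∀ a b : Mat m, B a b = B b a := fun a b => by rw [hB, hB, metric_comm]
  have hΓ' : IsLeviCivita Ω (ind B F) Γ := by rw [hind]; exact hΓ
  have hg := gauss h.isOpen h.smooth' hBs hΓ' hx u v w z
  refine ((hB _ _).symm.trans (hg.trans (congrArg₂ (fun a b : ℝ => a - b) (hB _ _) (hB _ _)))).trans ?_
  show metric ε c (sff F Γ x v w) (sff F Γ x u z) - metric ε c (sff F Γ x u w) (sff F Γ x v z) = _
  have hPP : F x * F x = F x := space_idem hε (h.mem x hx)
  have key : ∀ a b c' d, metric ε c (sff F Γ x a b) (sff F Γ x c' d) =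
      hform ε c F N x a b * hform ε c F N x c' d +
        metric ε c (sym (fderiv ℝ F x a) (fderiv ℝ F x b))
          (sym (fderiv ℝ F x c') (fderiv ℝ F x d)) := by
    intro a b c' d
    rw [sff_eq hε hc hm h hΓ hx a b, sff_eq hε hc hm h hΓ hx c' d]
    have hQ : ∀ a b, F x * sym (fderiv ℝ F x a) (fderiv ℝ F x b) =
        sym (fderiv ℝ F x a) (fderiv ℝ F x b) * F x := fun a b =>
      sym_comm_P (tangent_fst hε h hx a).2 (tangent_fst hε h hx b).2
    have hcomm : ∀ a b, F x * ((1 - 2 * F x) * sym (fderiv ℝ F x a) (fderiv ℝ F x b)) =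
        (1 - 2 * F x) * sym (fderiv ℝ F x a) (fderiv ℝ F x b) * F x := by
      intro a b
      calc F x * ((1 - 2 * F x) * sym (fderiv ℝ F x a) (fderiv ℝ F x b))
          = (1 - 2 * F x) * (F x * sym (fderiv ℝ F x a) (fderiv ℝ F x b)) := by noncomm_ring
        _ = _ := by rw [hQ]; noncomm_ring
    have o1 : ∀ a b, metric ε c ((1 - 2 * F x) * sym (fderiv ℝ F x a) (fderiv ℝ F x b)) (N x) = 0 :=
      fun a b => metric_comm_orth hPP (h.tangent_normal x hx).2 (hcomm a b)
    have o2 : metric ε c ((1 - 2 * F x) * sym (fderiv ℝ F x a) (fderiv ℝ F x b))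
        ((1 - 2 * F x) * sym (fderiv ℝ F x c') (fderiv ℝ F x d)) =
        metric ε c (sym (fderiv ℝ F x a) (fderiv ℝ F x b))
          (sym (fderiv ℝ F x c') (fderiv ℝ F x d)) := by
      have e : (1 - 2 * F x) * sym (fderiv ℝ F x a) (fderiv ℝ F x b) *
          ((1 - 2 * F x) * sym (fderiv ℝ F x c') (fderiv ℝ F x d)) =
          sym (fderiv ℝ F x a) (fderiv ℝ F x b) * sym (fderiv ℝ F x c') (fderiv ℝ F x d) := by
        set Q := sym (fderiv ℝ F x a) (fderiv ℝ F x b)
        set Q' := sym (fderiv ℝ F x c') (fderiv ℝ F x d)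
        have hQ1 : F x * Q = Q * F x := hQ a b
        calc (1 - 2 * F x) * Q * ((1 - 2 * F x) * Q')
            = Q * Q' - 2 * (F x * Q) * Q' - 2 * (Q * F x) * Q' + 4 * (F x * Q) * F x * Q' := by
              noncomm_ring
          _ = Q * Q' - 4 * (Q * F x) * Q' + 4 * Q * (F x * F x) * Q' := by
              rw [hQ1]; noncomm_ring
          _ = Q * Q' := by rw [hPP]; noncomm_ring
      simp only [metric, e]
    rw [metric_add_left, metric_add_right, metric_add_right, metric_smul_left, metric_smul_right,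
      metric_smul_left, metric_smul_right, h.unit_normal x hx, o1, metric_comm _ _ (N x), o1, o2]
    simp
  rw [key, key]
  have ht := congrArg Complex.re (trace_identity (fderiv ℝ F x u) (fderiv ℝ F x v)
    (fderiv ℝ F x w) (fderiv ℝ F x z))
  simp only [Complex.sub_re] at ht
  simp only [metric]
  linear_combination (c * ε) * ht

end Pool.Agent.GrassHyp67
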