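import Pool.Agent.helper67.GrassHyp.Gauss

/-!
# Existence of the Levi-Civita connection of an induced metric
-/

set_option autoImplicit false
set_option maxSynthPendingDepth 3

open Set
open scoped ContDiff

namespace Pool.Agent.GrassHyp67

section

variable {E V : Type*} [NormedAddCommGroup E] [NormedSpace ℝ E] [FiniteDimensional ℝ E]
  [NormedAddCommGroup V] [NormedSpace ℝ V]

/-- The flipping of the arguments as a continuous linear map. -/
noncomputable def flipC (X Y Z : Type*) [NormedAddCommGroup X] [NormedSpace ℝ X]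
    [NormedAddCommGroup Y] [NormedSpace ℝ Y] [NormedAddCommGroup Z] [NormedSpace ℝ Z] :
    (X →L[ℝ] Y →L[ℝ] Z) →L[ℝ] (Y →L[ℝ] X →L[ℝ] Z) :=
  (ContinuousLinearMap.flipₗᵢ ℝ X Y Z).toContinuousLinearEquiv.toContinuousLinearMap

@[simp] theorem flipC_apply {X Y Z : Type*} [NormedAddCommGroup X] [NormedSpace ℝ X]
    [NormedAddCommGroup Y] [NormedSpace ℝ Y] [NormedAddCommGroup Z] [NormedSpace ℝ Z]
    (f : X →L[ℝ] Y →L[ℝ] Z) (y : Y) (x : X) : flipC X Y Z f y x = f x y := rfl

/-- The metric tensor. -/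
noncomputable def gram (B : V →L[ℝ] V →L[ℝ] ℝ) (F : E → V) (x : E) : E →L[ℝ] E →L[ℝ] ℝ :=
  flipC _ _ _ ((flipC _ _ _ (B.comp (fderiv ℝ F x))).comp (fderiv ℝ F x))

theorem gram_apply (B : V →L[ℝ] V →L[ℝ] ℝ) (F : E → V) (x u v : E) :
    gram B F x u v = ind B F x u v := rfl

/-- The Koszul expression. -/
noncomputable def koszul (G : E →L[ℝ] E →L[ℝ] E →L[ℝ] ℝ) : E →L[ℝ] E →L[ℝ] E →L[ℝ] ℝ :=
  (1 / 2 : ℝ) • (G + flipC _ _ _ G - (flipC E E ℝ).comp (flipC _ _ _ G))

theorem koszul_apply (G : E →L[ℝ] E →L[ℝ] E →L[ℝ] ℝ) (u v w : E) :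
    koszul G u v w = (1 / 2) * (G u v w + G v u w - G w u v) := rfl

variable {Ω : Set E} {F : E → V} {B : V →L[ℝ] V →L[ℝ] ℝ}

theorem exists_leviCivita (hΩ : IsOpen Ω) (hF : ContDiffOn ℝ ∞ F Ω)
    (hB : ∀ a b, B a b = B b a)
    (hnd : ∀ x ∈ Ω, ∀ u, (∀ v, ind B F x u v = 0) → u = 0) :
    (∃ Γ, IsLeviCivita Ω (ind B F) Γ) ∧ ∀ x ∈ Ω, ∀ L : E →ₗ[ℝ] E →ₗ[ℝ] ℝ,
      ∃ A : E →ₗ[ℝ] E, ∀ u v, ind B F x (A u) v = L u v := by
  -- the metric tensor is an isomorphism
  have hiso : ∀ x ∈ Ω, ∃ e : E ≃L[ℝ] (E →L[ℝ] ℝ), (e : E →L[ℝ] (E →L[ℝ] ℝ)) = gram B F x := by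
    intro x hx
    have hinj : Function.Injective (gram B F x) := by
      rw [injective_iff_map_eq_zero]
      intro u hu
      exact hnd x hx u fun v => by rw [← gram_apply, hu]; rfl
    have hfr : Module.finrank ℝ E = Module.finrank ℝ (E →L[ℝ] ℝ) := by
      have h1 := (LinearMap.toContinuousLinearMap (𝕜 := ℝ) (E := E) (F' := ℝ)).finrank_eq
      rw [← h1]
      exact (Subspace.dual_finrank_eq (K := ℝ) (V := E)).symm
    have hsurj : Function.Surjective (gram B F x) :=
      (LinearMap.injective_iff_surjective_of_finrank_eq_finrank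
        (f := (gram B F x : E →ₗ[ℝ] (E →L[ℝ] ℝ))) hfr).1 hinj
    let e0 : E ≃ₗ[ℝ] (E →L[ℝ] ℝ) :=
      LinearEquiv.ofBijective (gram B F x : E →ₗ[ℝ] (E →L[ℝ] ℝ)) ⟨hinj, hsurj⟩
    exact ⟨e0.toContinuousLinearEquiv, by ext; rfl⟩
  have hGs : ContDiffOn ℝ ∞ (gram B F) Ω := by
    intro x hx
    have h1 := contDiffAt_fst hΩ hF hx
    have h2 : ContDiffAt ℝ ∞ (fun y => B.comp (fderiv ℝ F y)) x :=
      contDiffAt_const.clm_comp h1
    have h3 := (flipC _ _ _).contDiff.contDiffAt.comp x h2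
    have h4 := h3.clm_comp h1
    exact ((flipC _ _ _).contDiff.contDiffAt.comp x h4).contDiffWithinAt
  have hGd : ∀ x ∈ Ω, HasFDerivAt (gram B F) (fderiv ℝ (gram B F) x) x := fun x hx =>
    (((hGs x hx).contDiffAt (hΩ.mem_nhds hx)).differentiableAt (by simp)).hasFDerivAt
  have hGd' : ∀ x ∈ Ω, ∀ u v w, fderiv ℝ (fun y => ind B F y v w) x u =
      fderiv ℝ (gram B F) x u v w := by
    intro x hx u v w
    have h1 := ((hGd x hx).clm_apply (hasFDerivAt_const v x)).clm_apply (hasFDerivAt_const w x)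
    have h2 : fderiv ℝ (fun y => ind B F y v w) x = _ := h1.fderiv
    rw [h2]
    simp
  constructor
  · refine ⟨fun x => (ContinuousLinearMap.compL ℝ E (E →L[ℝ] ℝ) E (gram B F x).inverse).comp
      (koszul (fderiv ℝ (gram B F) x)), ?_, ?_⟩
    · intro x hx
      obtain ⟨e, he⟩ := hiso x hx
      have h0 : ContDiffAt ℝ ∞ (gram B F) x := (hGs x hx).contDiffAt (hΩ.mem_nhds hx)
      have h1 : ContDiffAt ℝ ∞ (fun y => (gram B F y).inverse) x := by
        have h2 := contDiffAt_map_inverse (𝕜 := ℝ) (n := ∞) e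
        rw [he] at h2
        exact h2.comp x h0
      have h3 : ContDiffAt ℝ ∞ (fderiv ℝ (gram B F)) x := h0.fderiv_right (m := ∞) (by simp)
      have h4 : ContDiffAt ℝ ∞ (fun y => koszul (fderiv ℝ (gram B F) y)) x := by
        have a1 := (flipC E E (E →L[ℝ] ℝ)).contDiff.contDiffAt.comp x h3
        have a2 : ContDiffAt ℝ ∞ (fun y => (flipC E E ℝ).comp
          (flipC E E (E →L[ℝ] ℝ) (fderiv ℝ (gram B F) y))) x := contDiffAt_const.clm_comp a1
        exact ((h3.add a1).sub a2).const_smul (1 / 2 : ℝ)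
      have h5 := (ContinuousLinearMap.compL ℝ E (E →L[ℝ] ℝ) E).contDiff.contDiffAt.comp x h1
      exact (h5.clm_comp h4).contDiffWithinAt
    · intro x hx
      obtain ⟨e, he⟩ := hiso x hx
      have hinv : ∀ φ : E →L[ℝ] ℝ, gram B F x ((gram B F x).inverse φ) = φ := by
        intro φ
        rw [← he, ContinuousLinearMap.inverse_equiv]
        exact e.apply_symm_apply φ
      have hgs : ∀ u v w, fderiv ℝ (gram B F) x u v w = fderiv ℝ (gram B F) x u w v := by
        intro u v w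
        rw [← hGd' x hx, ← hGd' x hx]
        congr 2
        funext y
        exact hB _ _
      have hK : ∀ u v w, ind B F x ((gram B F x).inverse
          (koszul (fderiv ℝ (gram B F) x) u v)) w = koszul (fderiv ℝ (gram B F) x) u v w := by
        intro u v w
        rw [← gram_apply, hinv]
      have hs : ∀ a b, ind B F x a b = ind B F x b a := fun a b => hB _ _
      refine ⟨fun u v => ?_, fun u v w => ?_⟩
      · have h1 : koszul (fderiv ℝ (gram B F) x) u v = koszul (fderiv ℝ (gram B F) x) v u := by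
          ext w
          rw [koszul_apply, koszul_apply, hgs w u v]
          ring
        exact congrArg (fun φ => (gram B F x).inverse φ) h1
      · rw [hGd' x hx]
        change _ = ind B F x ((gram B F x).inverse (koszul (fderiv ℝ (gram B F) x) u v)) w +
          ind B F x v ((gram B F x).inverse (koszul (fderiv ℝ (gram B F) x) u w))
        rw [hs v, hK, hK, koszul_apply, koszul_apply, hgs u w v]
        ring
  · intro x hx L
    obtain ⟨e, he⟩ := hiso x hx
    refine ⟨(e.symm.toLinearEquiv.toLinearMap ∘ₗ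
      (LinearMap.toContinuousLinearMap (𝕜 := ℝ) (E := E) (F' := ℝ)).toLinearMap) ∘ₗ L, ?_⟩
    intro u v
    rw [← gram_apply, ← he]
    change e (e.symm (LinearMap.toContinuousLinearMap (L u))) v = L u v
    rw [e.apply_symm_apply]
    rfl

end

end Pool.Agent.GrassHyp67
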