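import Pool.Agent.helper67.GrassHyp.GaussEq

/-!
# Nonexistence for `m ≥ 2`
-/

set_option autoImplicit false

open Matrix Set
open scoped Matrix.Norms.Elementwise ContDiff

namespace Pool.Agent.GrassHyp67

section Algebra

variable {m : ℕ} {ε c : ℝ}

/-- The block of a quaternionic element. -/
noncomputable def ublk (ε : ℝ) (g U : Mat m) : Matrix (Fin 2) (Fin 2) ℂ :=
  (ginv ε g * U * g).toBlocks₁₁

theorem isQuat_blocks (hε : ε * ε = 1) {P g U : Mat m} (hg : gᴴ * form ε m * g = form ε m)
    (hP : P * g = g * base m) (hU : IsQuat ε P U) :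
    ginv ε g * U * g = Matrix.fromBlocks (ublk ε g U) 0 0 0 ∧ (ublk ε g U)ᴴ = -ublk ε g U ∧
      (ublk ε g U).trace = 0 := by
  set Y : Mat m := ginv ε g * U * g with hY
  have hgP := ginv_space hε hg hP
  have h1 : base m * Y = Y := by
    calc base m * Y = (base m * ginv ε g) * U * g := by rw [hY]; noncomm_ring
      _ = ginv ε g * (P * U) * g := by rw [← hgP]; noncomm_ring
      _ = Y := by rw [hU.1]
  have h2 : Y * base m = Y := by
    calc Y * base m = ginv ε g * U * (g * base m) := by rw [hY]; noncomm_ring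
      _ = ginv ε g * (U * P) * g := by rw [← hP]; noncomm_ring
      _ = Y := by rw [hU.2.1]
  have h3 : Yᴴ * form ε m = -(form ε m * Y) := by
    rw [hY, conjTranspose_mul, conjTranspose_mul]
    calc gᴴ * (Uᴴ * (ginv ε g)ᴴ) * form ε m = gᴴ * Uᴴ * ((ginv ε g)ᴴ * form ε m) := by noncomm_ring
      _ = gᴴ * (Uᴴ * form ε m) * g := by rw [ginv_conj hε]; noncomm_ring
      _ = -((gᴴ * form ε m) * U * g) := by rw [hU.2.2.1]; noncomm_ring
      _ = -(form ε m * (ginv ε g * U * g)) := by rw [conj_ginv hε]; noncomm_ring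
  have h4 : Y.trace = 0 := by
    rw [hY, Matrix.trace_mul_comm, ← mul_assoc, mul_ginv hε hg, one_mul]
    exact hU.2.2.2
  have h5 : Y = Matrix.fromBlocks (ublk ε g U) 0 0 0 := by
    have h6 := h1
    have h7 := h2
    rw [← Matrix.fromBlocks_toBlocks Y] at h6 h7
    simp only [base, Matrix.fromBlocks_multiply] at h6 h7
    have a1 := congrArg Matrix.toBlocks₂₁ h6
    have a2 := congrArg Matrix.toBlocks₂₂ h6
    have a3 := congrArg Matrix.toBlocks₁₂ h7
    simp at a1 a2 a3
    rw [← Matrix.fromBlocks_toBlocks Y, ← a1, ← a2, ← a3, ublk, ← hY]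
  refine ⟨h5, ?_, ?_⟩
  · rw [h5] at h3
    simp only [form, Matrix.fromBlocks_conjTranspose, Matrix.fromBlocks_multiply] at h3
    have h6 := congrArg Matrix.toBlocks₁₁ h3
    simpa [Matrix.fromBlocks_neg] using h6
  · rw [h5, trace_blocks] at h4
    simpa using h4

theorem quat_lift (hε : ε * ε = 1) {P g U : Mat m} (hg : gᴴ * form ε m * g = form ε m)
    (hP : P * g = g * base m) (hU : IsQuat ε P U) (y : Blk m) :
    quat U (lift ε g y) = lift ε g (y * ublk ε g U) := by
  obtain ⟨h1, h2, -⟩ := isQuat_blocks hε hg hP hU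
  set u := ublk ε g U
  have hU' : U = g * Matrix.fromBlocks u 0 0 0 * ginv ε g := by
    rw [← h1]
    calc U = (g * ginv ε g) * U * (g * ginv ε g) := by rw [mul_ginv hε hg]; noncomm_ring
      _ = _ := by noncomm_ring
  have h3 : tvec ε y * Matrix.fromBlocks u 0 0 0 - Matrix.fromBlocks u 0 0 0 * tvec ε y =
      tvec ε (y * u) := by
    simp only [tvec, Matrix.fromBlocks_multiply, conjTranspose_mul, h2]
    rw [sub_eq_add_neg, Matrix.fromBlocks_neg, Matrix.fromBlocks_add]
    simp
  rw [quat, lift, hU', lift, ← h3]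
  calc g * tvec ε y * ginv ε g * (g * fromBlocks u 0 0 0 * ginv ε g) -
        g * fromBlocks u 0 0 0 * ginv ε g * (g * tvec ε y * ginv ε g)
      = g * tvec ε y * (ginv ε g * g) * fromBlocks u 0 0 0 * ginv ε g -
        g * fromBlocks u 0 0 0 * (ginv ε g * g) * tvec ε y * ginv ε g := by noncomm_ring
    _ = _ := by rw [ginv_mul hε hg]; noncomm_ring

theorem cplx_lift (hε : ε * ε = 1) {P g : Mat m} (hg : gᴴ * form ε m * g = form ε m)
    (hP : P * g = g * base m) (y : Blk m) :
    cplx P (lift ε g y) = lift ε g (Complex.I • y) := by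
  have h3 : Complex.I • (tvec ε y * base m - base m * tvec ε y) = tvec ε (Complex.I • y) := by
    simp only [tvec, base, Matrix.fromBlocks_multiply, conjTranspose_smul]
    rw [sub_eq_add_neg, Matrix.fromBlocks_neg, Matrix.fromBlocks_add, Matrix.fromBlocks_smul]
    simp only [Matrix.mul_zero, Matrix.mul_one, Matrix.zero_mul, Matrix.one_mul, add_zero,
      zero_add, neg_zero, smul_zero]
    congr 1
    ext i j
    simp
    ring
  rw [cplx, lift, space_eq hε hg hP, lift, ← h3]
  have h4 : g * tvec ε y * ginv ε g * (g * base m * ginv ε g) -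
      g * base m * ginv ε g * (g * tvec ε y * ginv ε g) =
      g * (tvec ε y * base m - base m * tvec ε y) * ginv ε g := by
    calc g * tvec ε y * ginv ε g * (g * base m * ginv ε g) -
          g * base m * ginv ε g * (g * tvec ε y * ginv ε g)
        = g * tvec ε y * (ginv ε g * g) * base m * ginv ε g -
          g * base m * (ginv ε g * g) * tvec ε y * ginv ε g := by noncomm_ring
      _ = _ := by rw [ginv_mul hε hg]; noncomm_ring
  rw [h4]
  simp only [mul_smul_comm, smul_mul_assoc]

theorem lift_mul_lift (hε : ε * ε = 1) {g : Mat m} (hg : gᴴ * form ε m * g = form ε m)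
    (x y : Blk m) : lift ε g x * lift ε g y = g * (tvec ε x * tvec ε y) * ginv ε g := by
  calc lift ε g x * lift ε g y = g * tvec ε x * (ginv ε g * g) * tvec ε y * ginv ε g := by
        simp only [lift]; noncomm_ring
    _ = _ := by rw [ginv_mul hε hg]; noncomm_ring

/-- The curvature term in block coordinates. -/
theorem metric_comm_lift (hε : ε * ε = 1) {g : Mat m} (hg : gᴴ * form ε m * g = form ε m)
    (x y w z : Blk m) :
    metric ε c (lift ε g x * lift ε g y - lift ε g y * lift ε g x)
      (lift ε g w * lift ε g z - lift ε g z * lift ε g w) =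
    c * ε * (((xᴴ * y - yᴴ * x) * (wᴴ * z - zᴴ * w)).trace.re +
      ((x * yᴴ - y * xᴴ) * (w * zᴴ - z * wᴴ)).trace.re) := by
  have h : (ε : ℂ) * ε = 1 := by exact_mod_cast hε
  have key : ∀ x y : Blk m, lift ε g x * lift ε g y - lift ε g y * lift ε g x =
      g * Matrix.fromBlocks ((ε : ℂ) • (xᴴ * y - yᴴ * x)) 0 0 ((ε : ℂ) • (x * yᴴ - y * xᴴ)) *
        ginv ε g := by
    intro x y
    have h1 : Matrix.fromBlocks ((ε : ℂ) • (xᴴ * y - yᴴ * x)) 0 0
        ((ε : ℂ) • (x * yᴴ - y * xᴴ)) = tvec ε x * tvec ε y - tvec ε y * tvec ε x := by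
      rw [tvec_mul, tvec_mul]
      conv_rhs => rw [sub_eq_add_neg, Matrix.fromBlocks_neg, Matrix.fromBlocks_add]
      simp [smul_sub, sub_eq_add_neg]
    rw [h1, lift_mul_lift hε hg, lift_mul_lift hε hg]
    noncomm_ring
  rw [key, key, metric]
  set A := Matrix.fromBlocks ((ε : ℂ) • (xᴴ * y - yᴴ * x)) 0 0 ((ε : ℂ) • (x * yᴴ - y * xᴴ))
    with hA
  set B := Matrix.fromBlocks ((ε : ℂ) • (wᴴ * z - zᴴ * w)) 0 0 ((ε : ℂ) • (w * zᴴ - z * wᴴ))
    with hB
  have h2 : (g * A * ginv ε g * (g * B * ginv ε g)).trace = (A * B).trace := by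
    calc (g * A * ginv ε g * (g * B * ginv ε g)).trace
        = (g * (A * (ginv ε g * g) * B * ginv ε g)).trace := by congr 1; noncomm_ring
      _ = (A * (ginv ε g * g) * B * ginv ε g * g).trace := Matrix.trace_mul_comm _ _
      _ = (A * (ginv ε g * g) * B * (ginv ε g * g)).trace := by congr 1; noncomm_ring
      _ = _ := by rw [ginv_mul hε hg]; congr 1; noncomm_ring
  rw [h2, hA, hB, Matrix.fromBlocks_multiply, trace_blocks]
  simp only [Matrix.smul_mul, Matrix.mul_smul, smul_smul, h, Matrix.zero_mul, Matrix.mul_zero,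
    add_zero, zero_add, one_smul, Complex.add_re]

/-- The trace of a product of two skew-Hermitian matrices is real. -/
theorem trace_skew_real {k : ℕ} {K u : Matrix (Fin k) (Fin k) ℂ} (hK : Kᴴ = -K) (hu : uᴴ = -u) :
    (K * u).trace.im = 0 := by
  have h : star ((K * u).trace) = (K * u).trace := by
    rw [← Matrix.trace_conjTranspose, conjTranspose_mul, hK, hu, Matrix.neg_mul, Matrix.mul_neg,
      neg_neg, Matrix.trace_mul_comm]
  have h2 := congrArg Complex.im h
  simp at h2
  linarith

end Algebra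

end Pool.Agent.GrassHyp67
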