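import Pool.Agent.helper67.GrassHyp.NonExist

/-!
# Nonexistence for `m ≥ 2`: the geometric part
-/

set_option autoImplicit false

open Matrix Set
open scoped Matrix.Norms.Elementwise ContDiff

namespace Pool.Agent.GrassHyp67

section

variable {m : ℕ} {ε c : ℝ} {Ω : Set (Coord m)} {F N : Coord m → Mat m}
  {Γ : Coord m → Coord m →L[ℝ] Coord m →L[ℝ] Coord m} {A : Coord m → Coord m →ₗ[ℝ] Coord m}
  {Ui : Mat m} {κ μ ν : ℝ}

theorem hform_symm (h : IsHypersurface ε c m Ω F N) {x : Coord m} (hx : x ∈ Ω) (u v : Coord m) :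
    hform ε c F N x u v = hform ε c F N x v u := by
  have h1 := snd_symm h.isOpen h.smooth' hx u v
  exact congrArg (fun Y => metric ε c Y (N x)) h1

theorem hform_eq (hε : ε * ε = 1) (h : IsHypersurface ε c m Ω F N) {x : Coord m} (hx : x ∈ Ω)
    (g : Mat m) (u v : Coord m) (y : Blk m) (hv : fderiv ℝ F x v = lift ε g y) :
    hform ε c F N x u v = -ipb c (blk ε g (fderiv ℝ N x u)) y := by
  have h1 := weingarten h hx u v
  rw [hv, metric_comm _ _ (lift ε g y), metric_lift hε (normal_eq hε h hx u).1] at h1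
  rw [hform]
  linarith

/-- The consequence of the nullity condition for two vectors orthogonal to `ξ_i`. -/
theorem nullity_eq (hε : ε * ε = 1) (hc : 0 < c) (hm : 1 ≤ m) (h : IsHypersurface ε c m Ω F N)
    (hΓ : IsLeviCivita Ω (induced ε c F) Γ) {x : Coord m} (hx : x ∈ Ω) {ξ : Coord m}
    (hn : InNullity ε c F N Γ A Ui κ μ ν x ξ) {u v : Coord m}
    (hu : etaForm ε c (N x) Ui (fderiv ℝ F x u) = 0)
    (hv : etaForm ε c (N x) Ui (fderiv ℝ F x v) = 0) (z : Coord m) :
    hform ε c F N x v ξ * hform ε c F N x u z - hform ε c F N x u ξ * hform ε c F N x v z +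
      metric ε c
        (fderiv ℝ F x u * fderiv ℝ F x v - fderiv ℝ F x v * fderiv ℝ F x u)
        (fderiv ℝ F x ξ * fderiv ℝ F x z - fderiv ℝ F x z * fderiv ℝ F x ξ) = 0 := by
  have hn' : fderiv ℝ F x (riemann Γ x u v ξ) =
      etaForm ε c (N x) Ui (fderiv ℝ F x v) •
          comb ε c (N x) Ui κ μ ν (fderiv ℝ F x u) (fderiv ℝ F x (A x u)) -
        etaForm ε c (N x) Ui (fderiv ℝ F x u) •
          comb ε c (N x) Ui κ μ ν (fderiv ℝ F x v) (fderiv ℝ F x (A x v)) := hn u v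
  rw [← gauss_eq hε hc hm h hΓ hx u v ξ z, hn', hu, hv]
  simp [metric]

theorem lift_neg' (g : Mat m) (x : Blk m) : lift ε g (-x) = -lift ε g x := by
  have h := lift_smul (ε := ε) g (-1) x
  simpa using h

theorem etaForm_lift (hε : ε * ε = 1) {P g : Mat m} (hg : gᴴ * form ε m * g = form ε m)
    (hP : P * g = g * base m) (hU : IsQuat ε P Ui) (n y : Blk m) :
    etaForm ε c (lift ε g n) Ui (lift ε g y) = -ipb c y (n * ublk ε g Ui) := by
  rw [etaForm, quat_lift hε hg hP hU, ← lift_neg', metric_lift hε (lift_tangent hε hg hP y).1,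
    blk_lift hε hg]
  have h := ipb_smul_right (c := c) (-1) y (n * ublk ε g Ui)
  simpa using h

/-- The data at a point. -/
structure AtPoint (ε c : ℝ) (m : ℕ) (F N : Coord m → Mat m) (x ξ : Coord m) (Ui g : Mat m)
    (n : Blk m) (u : Matrix (Fin 2) (Fin 2) ℂ) : Prop where
  hg : gᴴ * form ε m * g = form ε m
  hP : F x * g = g * base m
  hN : N x = lift ε g n
  hξ : fderiv ℝ F x ξ = lift ε g (-(Complex.I • n))
  hu : uᴴ = -u
  hu0 : u.trace = 0
  hη : ∀ v y, fderiv ℝ F x v = lift ε g y → ipb c y (n * u) = 0 →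
    etaForm ε c (N x) Ui (fderiv ℝ F x v) = 0
  hex : ∀ y, ipb c y n = 0 → ∃ v, fderiv ℝ F x v = lift ε g y
  hn : ipb c n n = 1

theorem exists_atPoint (hε : ε * ε = 1) (hm : 1 ≤ m) (h : IsHypersurface ε c m Ω F N)
    {x : Coord m} (hx : x ∈ Ω) {ξ : Coord m} (hξ : fderiv ℝ F x ξ = -cplx (F x) (N x))
    (hU : IsQuat ε (F x) Ui) : ∃ g n u, AtPoint ε c m F N x ξ Ui g n u := by
  obtain ⟨g, hg, -, hP⟩ := h.mem x hx
  have hN := h.tangent_normal x hx
  have hNn : lift ε g (blk ε g (N x)) = N x := lift_blk hε hg hP hN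
  obtain ⟨-, hu, hu0⟩ := isQuat_blocks hε hg hP hU
  refine ⟨g, blk ε g (N x), ublk ε g Ui, hg, hP, hNn.symm, ?_, hu, hu0, ?_, ?_, ?_⟩
  · rw [hξ, lift_neg', ← cplx_lift hε hg hP, hNn]
  · intro v y hv hy
    rw [hv, ← hNn, etaForm_lift hε hg hP hU, hy, neg_zero]
  · intro y hy
    have h1 : metric ε c (lift ε g y) (N x) = 0 := by
      rw [← hNn, metric_lift hε (lift_tangent hε hg hP y).1, blk_lift hε hg]
      exact hy
    exact exists_fderiv_eq hε hm h hx (lift_tangent hε hg hP y) h1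
  · rw [← metric_lift hε hN.1, hNn]
    exact h.unit_normal x hx

/-- The algebraic core of the first step. -/
theorem step_one (hε : ε * ε = 1) (hc : 0 < c) (hm : 2 ≤ m) (h : IsHypersurface ε c m Ω F N)
    (hΓ : IsLeviCivita Ω (induced ε c F) Γ) {x : Coord m} (hx : x ∈ Ω) {ξ : Coord m}
    (hnull : InNullity ε c F N Γ A Ui κ μ ν x ξ) {g : Mat m} {n : Blk m}
    {ui : Matrix (Fin 2) (Fin 2) ℂ} (hp : AtPoint ε c m F N x ξ Ui g n ui)
    {u w : Matrix (Fin 2) (Fin 2) ℂ} (hu : uᴴ = -u)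
    (hw : w = Complex.I • (nᴴ * n * u - u * (nᴴ * n))) {ρ : ℝ} (hρ : 0 < ρ)
    (hww : w * w = -((ρ : ℂ) • 1)) : False := by
  set b : Blk m := blk ε g (fderiv ℝ N x ξ) with hb
  let L : Blk m →ₗ[ℝ] (Fin 6 → ℝ) :=
    { toFun := fun y => ![ipb c y n, ipb c (y * w) n, ipb c y (n * ui), ipb c (y * w) (n * ui),
        ipb c b y, ipb c b (y * w)]
      map_add' := fun y z => by
        ext i
        fin_cases i <;> simp [ipb_add_left, ipb_add_right, Matrix.add_mul]
      map_smul' := fun a y => by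
        ext i
        fin_cases i <;> simp [ipb_smul_left, ipb_smul_right] }
  have hker : LinearMap.ker L ≠ ⊥ := by
    refine LinearMap.ker_ne_bot_of_finrank_lt ?_
    rw [finrank_blk]
    simp
    omega
  obtain ⟨y, hy, hy0⟩ := Submodule.exists_mem_ne_zero_of_ne_bot hker
  have hLy : L y = 0 := hy
  have e0 : ipb c y n = 0 := congrFun hLy 0
  have e1 : ipb c (y * w) n = 0 := congrFun hLy 1
  have e2 : ipb c y (n * ui) = 0 := congrFun hLy 2
  have e3 : ipb c (y * w) (n * ui) = 0 := congrFun hLy 3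
  have e4 : ipb c b y = 0 := congrFun hLy 4
  have e5 : ipb c b (y * w) = 0 := congrFun hLy 5
  have hHu : (nᴴ * n)ᴴ = nᴴ * n := by rw [conjTranspose_mul, conjTranspose_conjTranspose]
  -- the vector `n u` is tangent
  have e6 : ipb c (n * u) n = 0 := by
    have h0 : (n * u)ᴴ * n = -(u * (nᴴ * n)) := by
      rw [conjTranspose_mul, hu, Matrix.neg_mul, Matrix.neg_mul, Matrix.mul_assoc]
    have h1 : star ((u * (nᴴ * n)).trace) = -(u * (nᴴ * n)).trace := by
      rw [← Matrix.trace_conjTranspose, conjTranspose_mul, hHu, hu, Matrix.mul_neg,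
        Matrix.trace_neg, Matrix.trace_mul_comm]
    have h2 := congrArg Complex.re h1
    simp only [Complex.neg_re, Complex.star_def, Complex.conj_re] at h2
    rw [ipb, h0, Matrix.trace_neg, Complex.neg_re]
    have h3 : (u * (nᴴ * n)).trace.re = 0 := by linarith
    rw [h3]
    simp
  obtain ⟨v, hv⟩ := hp.hex y e0
  obtain ⟨u', hu'⟩ := hp.hex (y * w) e1
  obtain ⟨z, hz⟩ := hp.hex (n * u) e6
  have k1 := nullity_eq hε hc (by omega) h hΓ hx hnull (hp.hη u' _ hu' e3) (hp.hη v _ hv e2) z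
  have k2 : hform ε c F N x v ξ = 0 := by
    rw [hform_symm h hx, hform_eq hε h hx g ξ v y hv, ← hb, e4, neg_zero]
  have k3 : hform ε c F N x u' ξ = 0 := by
    rw [hform_symm h hx, hform_eq hε h hx g ξ u' (y * w) hu', ← hb, e5, neg_zero]
  rw [k2, k3, hu', hv, hz, hp.hξ, metric_comm_lift hε hp.hg] at k1
  have hwc : wᴴ = -w := by
    have h1 : (nᴴ * n * u - u * (nᴴ * n))ᴴ = nᴴ * n * u - u * (nᴴ * n) := by
      rw [conjTranspose_sub, conjTranspose_mul (nᴴ * n) u, conjTranspose_mul u, hHu, hu]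
      noncomm_ring
    rw [hw, conjTranspose_smul, h1]
    simp
  have t1 : (-(Complex.I • n))ᴴ * (n * u) - (n * u)ᴴ * -(Complex.I • n) = w := by
    rw [hw, conjTranspose_neg, conjTranspose_smul, conjTranspose_mul, hu]
    simp only [Complex.star_def, Complex.conj_I, neg_smul, neg_neg, Matrix.smul_mul,
      Matrix.mul_smul, Matrix.mul_neg, Matrix.neg_mul, smul_sub, smul_neg, Matrix.mul_assoc]
  have t2 : -(Complex.I • n) * (n * u)ᴴ - n * u * (-(Complex.I • n))ᴴ = 0 := by
    rw [conjTranspose_neg, conjTranspose_smul, conjTranspose_mul, hu]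
    simp only [Complex.star_def, Complex.conj_I, neg_smul, neg_neg, Matrix.smul_mul,
      Matrix.mul_smul, Matrix.mul_neg, Matrix.neg_mul, Matrix.mul_assoc, sub_self]
  rw [t1, t2, Matrix.mul_zero, Matrix.trace_zero] at k1
  set G : Matrix (Fin 2) (Fin 2) ℂ := yᴴ * y with hG
  have t3 : ((y * w)ᴴ * y - yᴴ * (y * w)) * w = -(w * G * w) - G * (w * w) := by
    rw [conjTranspose_mul, hwc, hG]
    simp only [Matrix.neg_mul, Matrix.sub_mul, Matrix.mul_assoc]
  have t4 : (((y * w)ᴴ * y - yᴴ * (y * w)) * w).trace = 2 * ρ * G.trace := by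
    rw [t3, Matrix.trace_sub, Matrix.trace_neg, Matrix.trace_mul_comm (w * G) w, ← Matrix.mul_assoc,
      hww]
    simp
    ring
  rw [t4] at k1
  have hG' : G.trace.re = 0 := by
    have h5 : c * ε * (2 * ρ * G.trace.re) = 0 := by
      have h6 : (2 * (ρ : ℂ) * G.trace).re = 2 * ρ * G.trace.re := by simp
      rw [h6] at k1
      simpa using k1
    have hε0 : ε ≠ 0 := fun h0 => by rw [h0] at hε; norm_num at hε
    have h7 : c * ε ≠ 0 := mul_ne_zero hc.ne' hε0
    rcases mul_eq_zero.1 h5 with h8 | h8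
    · exact absurd h8 h7
    · rcases mul_eq_zero.1 h8 with h9 | h9
      · exact absurd h9 (by positivity)
      · exact h9
  refine hy0 (ipb_self_eq_zero hc ?_)
  rw [ipb, ← hG, hG', mul_zero]

end

end Pool.Agent.GrassHyp67
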