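import Pool.Agent.helper67.GrassHyp.NonExist2

/-!
# Nonexistence for `m ≥ 2`: conclusion
-/

set_option autoImplicit false

open Matrix Set
open scoped Matrix.Norms.Elementwise ContDiff

namespace Pool.Agent.GrassHyp67

section

variable {m : ℕ} {ε c : ℝ} {Ω : Set (Coord m)} {F N : Coord m → Mat m}
  {Γ : Coord m → Coord m →L[ℝ] Coord m →L[ℝ] Coord m} {A : Coord m → Coord m →ₗ[ℝ] Coord m}
  {Ui : Mat m} {κ μ ν : ℝ}

theorem comm_a (H : Matrix (Fin 2) (Fin 2) ℂ) :
    Complex.I • (H * !![Complex.I, 0; 0, -Complex.I] - !![Complex.I, 0; 0, -Complex.I] * H) =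
      !![0, 2 * H 0 1; -(2 * H 1 0), 0] := by
  have hI : Complex.I * Complex.I = -1 := Complex.I_mul_I
  ext i j
  rw [Matrix.smul_apply, Matrix.sub_apply, Matrix.mul_apply, Matrix.mul_apply, Fin.sum_univ_two,
    Fin.sum_univ_two]
  fin_cases i <;> fin_cases j
  · simp
    ring
  · simp
    linear_combination (-2 * H 0 1) * hI
  · simp
    linear_combination (2 * H 1 0) * hI
  · simp
    ring

theorem comm_b (H : Matrix (Fin 2) (Fin 2) ℂ) (h01 : H 0 1 = 0) (h10 : H 1 0 = 0) :
    Complex.I • (H * !![0, 1; -1, 0] - !![0, 1; -1, 0] * H) =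
      !![0, Complex.I * (H 0 0 - H 1 1); Complex.I * (H 0 0 - H 1 1), 0] := by
  ext i j
  rw [Matrix.smul_apply, Matrix.sub_apply, Matrix.mul_apply, Matrix.mul_apply, Fin.sum_univ_two,
    Fin.sum_univ_two]
  fin_cases i <;> fin_cases j
  · simp [h01, h10]
  · simp [h01, h10]
  · simp [h01, h10]
    ring
  · simp [h01, h10]

/-- First step: the Gram matrix of the normal vector is scalar. -/
theorem gram_scalar (hε : ε * ε = 1) (hc : 0 < c) (hm : 2 ≤ m) (h : IsHypersurface ε c m Ω F N)
    (hΓ : IsLeviCivita Ω (induced ε c F) Γ) {x : Coord m} (hx : x ∈ Ω) {ξ : Coord m}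
    (hnull : InNullity ε c F N Γ A Ui κ μ ν x ξ) {g : Mat m} {n : Blk m}
    {ui : Matrix (Fin 2) (Fin 2) ℂ} (hp : AtPoint ε c m F N x ξ Ui g n ui) :
    nᴴ * n = ((1 / (4 * c) : ℝ) : ℂ) • (1 : Matrix (Fin 2) (Fin 2) ℂ) := by
  set H : Matrix (Fin 2) (Fin 2) ℂ := nᴴ * n with hH
  have hHH : Hᴴ = H := by rw [hH, conjTranspose_mul, conjTranspose_conjTranspose]
  have h10 : H 1 0 = star (H 0 1) := by
    have := congrFun (congrFun hHH 1) 0
    rw [conjTranspose_apply] at this
    exact this.symm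
  have h00 : star (H 0 0) = H 0 0 := by
    have := congrFun (congrFun hHH 0) 0
    rwa [conjTranspose_apply] at this
  have h11 : star (H 1 1) = H 1 1 := by
    have := congrFun (congrFun hHH 1) 1
    rwa [conjTranspose_apply] at this
  have i00 : (H 0 0).im = 0 := by
    have := congrArg Complex.im h00
    simp at this
    linarith
  have i11 : (H 1 1).im = 0 := by
    have := congrArg Complex.im h11
    simp at this
    linarith
  -- the off-diagonal entry vanishes
  have h01 : H 0 1 = 0 := by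
    by_contra hne
    refine step_one hε hc hm h hΓ hx hnull hp
      (u := !![Complex.I, 0; 0, -Complex.I]) (w := !![0, 2 * H 0 1; -(2 * star (H 0 1)), 0])
      (ρ := 4 * Complex.normSq (H 0 1)) ?_ ?_ ?_ ?_
    · ext i j
      fin_cases i <;> fin_cases j <;> simp
    · rw [← hH, comm_a, h10]
    · have := Complex.normSq_pos.2 hne
      positivity
    · ext i j
      fin_cases i <;> fin_cases j <;>
        simp [Matrix.mul_apply, Fin.sum_univ_two, Complex.normSq_eq_conj_mul_self] <;> ring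
  have h10' : H 1 0 = 0 := by rw [h10, h01]; simp
  -- the diagonal entries agree
  have hd : H 0 0 = H 1 1 := by
    by_contra hne
    have hne2 : (H 0 0).re - (H 1 1).re ≠ 0 := by
      intro h0
      apply hne
      apply Complex.ext
      · linarith
      · rw [i00, i11]
    refine step_one hε hc hm h hΓ hx hnull hp
      (u := !![0, 1; -1, 0]) (w := !![0, Complex.I * (H 0 0 - H 1 1); Complex.I * (H 0 0 - H 1 1), 0])
      (ρ := ((H 0 0).re - (H 1 1).re) ^ 2) ?_ ?_ (by positivity) ?_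
    · ext i j
      fin_cases i <;> fin_cases j <;> simp
    · rw [← hH, comm_b H h01 h10']
    · have e : H 0 0 - H 1 1 = (((H 0 0).re - (H 1 1).re : ℝ) : ℂ) := by
        apply Complex.ext
        · simp
        · simp [i00, i11]
      rw [e]
      ext i j
      fin_cases i <;> fin_cases j <;>
        simp [Matrix.mul_apply, Fin.sum_univ_two] <;> ring_nf <;> simp <;> ring
  have htr : 2 * c * ((H 0 0).re + (H 1 1).re) = 1 := by
    have h1 := hp.hn
    rw [ipb, ← hH] at h1
    simpa [Matrix.trace, Fin.sum_univ_two] using h1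
  have hre : (H 0 0).re = 1 / (4 * c) := by
    rw [← hd] at htr
    field_simp
    linarith
  have h00' : H 0 0 = ((1 / (4 * c) : ℝ) : ℂ) := by
    apply Complex.ext
    · rw [hre]; simp
    · rw [i00]; simp
  ext i j
  fin_cases i <;> fin_cases j
  · simpa using h00'
  · simpa using h01
  · simpa using h10'
  · rw [hd] at h00'
    simpa using h00'

/-- The relation `P N² = (ε / (4 c)) P`. -/
theorem normal_sq (hε : ε * ε = 1) {P g : Mat m} {n : Blk m}
    (hg : gᴴ * form ε m * g = form ε m) (hP : P * g = g * base m) {t : ℝ}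
    (hn : nᴴ * n = ((t : ℝ) : ℂ) • (1 : Matrix (Fin 2) (Fin 2) ℂ)) :
    P * (lift ε g n * lift ε g n) = (ε * t) • P := by
  rw [lift_mul_lift hε hg, tvec_mul, hn, space_eq hε hg hP]
  calc g * base m * ginv ε g * (g * fromBlocks ((ε : ℂ) • ((t : ℂ) • (1 : Matrix (Fin 2) (Fin 2) ℂ)))
          0 0 ((ε : ℂ) • (n * nᴴ)) * ginv ε g)
      = g * (base m * (ginv ε g * g) * fromBlocks ((ε : ℂ) • ((t : ℂ) • (1 : Matrix (Fin 2) (Fin 2) ℂ)))
          0 0 ((ε : ℂ) • (n * nᴴ))) * ginv ε g := by noncomm_ring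
    _ = g * ((ε * t) • base m) * ginv ε g := by
        rw [ginv_mul hε hg, mul_one]
        congr 2
        simp [base, Matrix.fromBlocks_multiply, Matrix.fromBlocks_smul, smul_smul]
    _ = _ := by simp only [mul_smul_comm, smul_mul_assoc]

/-- Second step: differentiating the relation. -/
theorem deriv_step (hε : ε * ε = 1) (h : IsHypersurface ε c m Ω F N) {t : ℝ}
    (hrel : ∀ y ∈ Ω, F y * (N y * N y) = (ε * t) • F y) {x : Coord m} (hx : x ∈ Ω) {g : Mat m}
    {n : Blk m} (hg : gᴴ * form ε m * g = form ε m) (hP : F x * g = g * base m)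
    (hN : N x = lift ε g n) (u : Coord m) :
    (blk ε g (fderiv ℝ N x u))ᴴ * n + nᴴ * blk ε g (fderiv ℝ N x u) = 0 := by
  have hd := diff_F h hx
  have hd2 := diff_N h hx
  have hPP : F x * F x = F x := space_idem hε (h.mem x hx)
  have hX := (tangent_fst hε h hx u).2
  have hNt := (h.tangent_normal x hx).2
  have h1 := fderiv_congr_on h.isOpen hrel hx u
  have h2 := fderiv_mul_mat hd2 hd2
  have h3 := (fderiv_mul_mat hd h2.1).2 u
  have h4 : fderiv ℝ (fun y => (ε * t) • F y) x u = (ε * t) • fderiv ℝ F x u :=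
    fderiv_lin (V := Mat m) (W := Mat m) (fun X => (ε * t) • X) (fun X Y => smul_add _ X Y)
      (fun r X => smul_comm _ r X) hd u
  have h5 := h3.symm.trans (h1.trans h4)
  rw [h2.2 u] at h5
  set P := F x with hPdef
  set X := fderiv ℝ F x u
  set D := fderiv ℝ N x u with hD
  have h6 : P * X * P = 0 := tangent_PXP hPP hX
  have h7 : P * (N x * N x) = N x * N x * P := by
    have := sym_comm_P hNt hNt
    have e : sym (N x) (N x) = (2 : ℝ) • (N x * N x) := by rw [sym, two_smul]
    rw [e, mul_smul_comm, smul_mul_assoc] at this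
    exact smul_right_injective _ (by norm_num : (2 : ℝ) ≠ 0) this
  have h8 : P * (D * N x + N x * D) * P = 0 := by
    have h9 : P * (X * (N x * N x) + P * (D * N x + N x * D)) * P = P * ((ε * t) • X) * P := by
      rw [h5]
    have h10 : P * (X * (N x * N x) + P * (D * N x + N x * D)) * P =
        P * X * (N x * N x * P) + (P * P) * (D * N x + N x * D) * P := by noncomm_ring
    rw [h10, ← h7, hPP, mul_smul_comm, smul_mul_assoc, h6, smul_zero] at h9
    have h11 : P * X * (P * (N x * N x)) = 0 := by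
      rw [← mul_assoc, h6, zero_mul]
    rw [h11, zero_add] at h9
    exact h9
  -- block form
  set Y : Mat m := ginv ε g * D * g with hY
  have hs : Yᴴ * form ε m = form ε m * Y :=
    conj_selfadj (g := g) hε (normal_eq hε h hx u).1
  have h12 := selfadj_blocks hs
  have h13 : base m * (Y * tvec ε n + tvec ε n * Y) * base m = 0 := by
    have e1 : ginv ε g * (P * (D * N x + N x * D) * P) * g = 0 := by rw [h8]; simp
    rw [← e1, hN, lift]
    have gP := ginv_space hε hg hP
    calc base m * (Y * tvec ε n + tvec ε n * Y) * base m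
        = base m * (ginv ε g * D * g * tvec ε n * (ginv ε g * g) +
            (ginv ε g * g) * tvec ε n * ginv ε g * D * g) * base m := by
          rw [hY, ginv_mul hε hg]; noncomm_ring
      _ = (base m * ginv ε g) * (D * (g * tvec ε n * ginv ε g) +
            (g * tvec ε n * ginv ε g) * D) * (g * base m) := by noncomm_ring
      _ = _ := by rw [← gP, ← hP]; noncomm_ring
  rw [← Matrix.fromBlocks_toBlocks Y] at h13
  simp only [base, tvec, Matrix.fromBlocks_multiply, Matrix.fromBlocks_add] at h13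
  have h14 := congrArg Matrix.toBlocks₁₁ h13
  simp at h14
  rw [h12] at h14
  have hε0 : (ε : ℂ) ≠ 0 := by
    intro h0
    have : ε = 0 := by exact_mod_cast h0
    rw [this] at hε
    norm_num at hε
  have h15 : (ε : ℂ) • ((blk ε g D)ᴴ * n + nᴴ * blk ε g D) = 0 := by
    rw [blk, ← hY, smul_add, ← Matrix.smul_mul]
    refine Eq.trans ?_ h14
    simp
  exact (smul_eq_zero.1 h15).resolve_left hε0

/-- **Nonexistence for `m ≥ 2`.** -/
theorem nonexist (hε : ε * ε = 1) (hc : 0 < c) (hm : 2 ≤ m) : ¬ HasNullityHypersurface ε c m := by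
  rintro ⟨Ω, F, N, Γ, A, U, i, κ, μ, ν, ξ, h, hΓ, -, -, hU, -, -, -, hξ, hnull⟩
  set τ : ℝ := 1 / (4 * c) with hτ
  have hτ0 : 0 < τ := by positivity
  -- the relation holds everywhere
  have hrel : ∀ y ∈ Ω, F y * (N y * N y) = (ε * τ) • F y := by
    intro y hy
    obtain ⟨g, n, u, hp⟩ := exists_atPoint hε (by omega) h hy (hξ y hy) ((hU y hy).1 i)
    rw [hp.hN]
    exact normal_sq hε hp.hg hp.hP (gram_scalar hε hc hm h hΓ hy (hnull y hy) hp)
  obtain ⟨x, hx⟩ := h.isConnected.nonempty
  obtain ⟨g, n, ui, hp⟩ := exists_atPoint hε (by omega) h hx (hξ x hx) ((hU x hx).1 i)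
  have hH : nᴴ * n = (τ : ℂ) • (1 : Matrix (Fin 2) (Fin 2) ℂ) :=
    gram_scalar hε hc hm h hΓ hx (hnull x hx) hp
  have hder := fun u => deriv_step hε h hrel hx hp.hg hp.hP hp.hN u
  set u : Matrix (Fin 2) (Fin 2) ℂ := !![Complex.I, 0; 0, -Complex.I] with hu
  have huc : uᴴ = -u := by
    ext i j
    fin_cases i <;> fin_cases j <;> simp [hu]
  have hu0 : u.trace = 0 := by simp [hu, Matrix.trace, Fin.sum_univ_two]
  have huu : u * u = -1 := by
    ext i j
    fin_cases i <;> fin_cases j <;> simp [hu, Matrix.mul_apply, Fin.sum_univ_two]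
  -- `y = ξ u`
  set y : Blk m := -(Complex.I • (n * u)) with hy
  have hyn : ∀ K : Blk m, (Kᴴ * n)ᴴ = -(Kᴴ * n) → ipb c K y = 0 := by
    intro K hK
    have h1 : (Kᴴ * y).trace = -(Complex.I * ((Kᴴ * n) * u).trace) := by
      rw [hy, Matrix.mul_neg, Matrix.mul_smul, Matrix.trace_neg, Matrix.trace_smul, smul_eq_mul,
        Matrix.mul_assoc]
    have h2 := trace_skew_real hK huc
    rw [ipb, h1]
    simp [h2]
  have e1 : ipb c y n = 0 := by
    have h1 : (yᴴ * n) = -((Complex.I * τ) • u) := by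
      rw [hy, conjTranspose_neg, conjTranspose_smul, conjTranspose_mul, huc]
      simp only [Complex.star_def, Complex.conj_I, neg_smul, neg_neg, Matrix.smul_mul,
        Matrix.neg_mul, Matrix.mul_assoc, hH, Matrix.mul_smul, Matrix.mul_one, smul_neg,
        smul_smul]
    rw [ipb, h1, Matrix.trace_neg, Matrix.trace_smul, hu0]
    simp
  have e2 : ipb c y (n * ui) = 0 := by
    have h1 : (yᴴ * (n * ui)) = -((Complex.I * τ) • (u * ui)) := by
      rw [hy, conjTranspose_neg, conjTranspose_smul, conjTranspose_mul, huc]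
      simp only [Complex.star_def, Complex.conj_I, neg_smul, neg_neg, Matrix.smul_mul,
        Matrix.neg_mul, smul_neg]
      rw [Matrix.mul_assoc, ← Matrix.mul_assoc nᴴ, hH]
      simp only [Matrix.smul_mul, Matrix.one_mul, Matrix.mul_smul, smul_smul]
    have h2 := trace_skew_real huc hp.hu
    rw [ipb, h1, Matrix.trace_neg, Matrix.trace_smul]
    simp [h2]
  have e3 : ipb c (-(Complex.I • n)) (n * ui) = 0 := by
    have h1 : ((-(Complex.I • n))ᴴ * (n * ui)) = (Complex.I * τ) • ui := by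
      rw [conjTranspose_neg, conjTranspose_smul]
      simp only [Complex.star_def, Complex.conj_I, neg_smul, neg_neg, Matrix.smul_mul]
      rw [← Matrix.mul_assoc nᴴ, hH]
      simp only [Matrix.smul_mul, Matrix.one_mul, smul_smul]
    rw [ipb, h1, Matrix.trace_smul, hp.hu0]
    simp
  obtain ⟨v, hv⟩ := hp.hex y e1
  have k1 := nullity_eq hε hc (by omega) h hΓ hx (hnull x hx) (hp.hη (ξ x) _ hp.hξ e3)
    (hp.hη v _ hv e2) v
  have hskew : ∀ w, ((blk ε g (fderiv ℝ N x w))ᴴ * n)ᴴ = -((blk ε g (fderiv ℝ N x w))ᴴ * n) := by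
    intro w
    rw [conjTranspose_mul, conjTranspose_conjTranspose]
    exact eq_neg_of_add_eq_zero_right (hder w)
  have k2 : hform ε c F N x (ξ x) v = 0 := by
    rw [hform_eq hε h hx g (ξ x) v y hv, hyn _ (hskew _), neg_zero]
  have k3 : hform ε c F N x v v = 0 := by
    rw [hform_eq hε h hx g v v y hv, hyn _ (hskew _), neg_zero]
  rw [k2, k3, hp.hξ, hv, metric_comm_lift hε hp.hg] at k1
  set z : Blk m := -(Complex.I • n) with hz
  have hyz : y = z * u := by rw [hy, hz, Matrix.neg_mul, Matrix.smul_mul]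
  have hzz : zᴴ * z = (τ : ℂ) • (1 : Matrix (Fin 2) (Fin 2) ℂ) := by
    rw [hz, conjTranspose_neg, conjTranspose_smul, Matrix.neg_mul, Matrix.mul_neg, neg_neg,
      Matrix.smul_mul, Matrix.mul_smul, hH, smul_smul]
    simp
  have t1 : zᴴ * y - yᴴ * z = ((2 * τ : ℝ) : ℂ) • u := by
    rw [hyz, conjTranspose_mul, huc, ← Matrix.mul_assoc, hzz, Matrix.mul_assoc, hzz,
      Matrix.smul_mul, Matrix.mul_smul, Matrix.one_mul, Matrix.mul_one, smul_neg, sub_neg_eq_add,
      ← add_smul]
    congr 1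
    push_cast
    ring
  have t2 : z * yᴴ - y * zᴴ = -((2 : ℂ) • (z * u * zᴴ)) := by
    rw [hyz, conjTranspose_mul, huc, Matrix.neg_mul u zᴴ, Matrix.mul_neg z, ← Matrix.mul_assoc,
      two_smul]
    abel
  rw [t1, t2] at k1
  have s1 : (((2 * τ : ℝ) : ℂ) • u * ((2 * τ : ℝ) : ℂ) • u).trace.re = -(8 * τ ^ 2) := by
    rw [Matrix.smul_mul, Matrix.mul_smul, huu, smul_smul, ← Complex.ofReal_mul, Matrix.trace_smul,
      Matrix.trace_neg, Matrix.trace_one]
    simp
    ring
  have s2 : (-((2 : ℂ) • (z * u * zᴴ)) * -((2 : ℂ) • (z * u * zᴴ))).trace.re = -(8 * τ ^ 2) := by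
    have h1 : z * u * zᴴ * (z * u * zᴴ) = -((τ : ℂ) • (z * zᴴ)) := by
      calc z * u * zᴴ * (z * u * zᴴ) = z * u * (zᴴ * z) * u * zᴴ := by
            simp only [Matrix.mul_assoc]
        _ = (τ : ℂ) • (z * (u * u) * zᴴ) := by
            rw [hzz]
            simp only [Matrix.mul_smul, Matrix.smul_mul, Matrix.mul_one, Matrix.mul_assoc]
        _ = _ := by rw [huu]; simp only [Matrix.mul_neg, Matrix.mul_one, Matrix.neg_mul, smul_neg]
    rw [Matrix.neg_mul, Matrix.mul_neg, neg_neg, Matrix.smul_mul, Matrix.mul_smul, h1, smul_smul,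
      Matrix.trace_smul, Matrix.trace_neg, Matrix.trace_smul, Matrix.trace_mul_comm, hzz,
      Matrix.trace_smul, Matrix.trace_one, smul_eq_mul, smul_eq_mul, smul_eq_mul]
    have h2 : (2 : ℂ) * 2 * -((τ : ℂ) * ((τ : ℂ) * (Fintype.card (Fin 2) : ℂ))) =
        ((-(8 * τ ^ 2) : ℝ) : ℂ) := by
      simp only [Fintype.card_fin]
      push_cast
      ring
    rw [h2, Complex.ofReal_re]
  rw [s1, s2] at k1
  have hε0 : ε ≠ 0 := fun h0 => by rw [h0] at hε; norm_num at hε
  have h7 : c * ε ≠ 0 := mul_ne_zero hc.ne' hε0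
  have h8 : c * ε * (16 * τ ^ 2) = 0 := by linarith
  have h9 : 16 * τ ^ 2 ≠ 0 := by positivity
  exact (mul_ne_zero h7 h9) h8

end

end Pool.Agent.GrassHyp67
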