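import Pool.Agent.helper67.GrassHyp.NonExist2

/-!
# Geodesic spheres in the case `m = 1`: algebra
-/

set_option autoImplicit false

open Matrix Set
open scoped Matrix.Norms.Elementwise ContDiff

namespace Pool.Agent.GrassHyp67

section

variable {ε c s r β : ℝ}

/-- The unitary matrix with second column `(w₁, w₂)`. -/
def Wmat (w₁ w₂ : ℂ) : Matrix (Fin 2) (Fin 2) ℂ := !![star w₂, w₁; -star w₁, w₂]

/-- The element of the isotropy group. -/
def hmat (w₁ w₂ : ℂ) : Mat 1 := Matrix.fromBlocks (Wmat w₁ w₂) 0 0 1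

/-- The transvection. -/
noncomputable def gzero (ε s r : ℝ) : Mat 1 :=
  Matrix.fromBlocks !![1, 0; 0, (r : ℂ)] !![0; (s : ℂ)] !![0, -((ε * s : ℝ) : ℂ)] !![(r : ℂ)]

/-- The frame. -/
noncomputable def gmat (ε s r : ℝ) (w₁ w₂ : ℂ) : Mat 1 := hmat w₁ w₂ * gzero ε s r

theorem Wmat_unitary {w₁ w₂ : ℂ} (hw : w₁ * star w₁ + w₂ * star w₂ = 1) :
    (Wmat w₁ w₂)ᴴ * Wmat w₁ w₂ = 1 := by
  ext i j
  rw [Matrix.mul_apply, Fin.sum_univ_two]
  fin_cases i <;> fin_cases j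
  · simp [Wmat, conjTranspose_apply] at hw ⊢
    linear_combination hw
  · simp [Wmat, conjTranspose_apply]
    ring
  · simp [Wmat, conjTranspose_apply]
    ring
  · simp [Wmat, conjTranspose_apply] at hw ⊢
    linear_combination hw

theorem hmat_form {w₁ w₂ : ℂ} (hw : w₁ * star w₁ + w₂ * star w₂ = 1) :
    (hmat w₁ w₂)ᴴ * form ε 1 * hmat w₁ w₂ = form ε 1 := by
  simp [hmat, form, Matrix.fromBlocks_conjTranspose, Matrix.fromBlocks_multiply,
    Wmat_unitary hw]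

theorem gzero_form (hε : ε * ε = 1) (hsr : ε * s ^ 2 + r ^ 2 = 1) :
    (gzero ε s r)ᴴ * form ε 1 * gzero ε s r = form ε 1 := by
  have h1 : (ε : ℂ) * s ^ 2 + r ^ 2 = 1 := by exact_mod_cast hsr
  have h2 : (ε : ℂ) * ε = 1 := by exact_mod_cast hε
  rw [gzero, form, Matrix.fromBlocks_conjTranspose, Matrix.fromBlocks_multiply,
    Matrix.fromBlocks_multiply]
  congr 1
  · ext i j
    fin_cases i <;> fin_cases j <;>
      simp [Matrix.mul_apply, conjTranspose_apply, Fin.sum_univ_two]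
    linear_combination h1 + ε * s ^ 2 * h2
  · ext i j
    fin_cases i <;> fin_cases j <;>
      simp [Matrix.mul_apply, conjTranspose_apply, Fin.sum_univ_two]
    linear_combination (-(r : ℂ) * s) * h2
  · ext i j
    fin_cases i <;> fin_cases j <;>
      simp [Matrix.mul_apply, conjTranspose_apply, Fin.sum_univ_two]
    linear_combination (-(r : ℂ) * s) * h2
  · ext i j
    fin_cases i <;> fin_cases j <;>
      simp [Matrix.mul_apply, conjTranspose_apply, Fin.sum_univ_two]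
    linear_combination ε * h1 - s ^ 2 * h2

theorem gmat_form (hε : ε * ε = 1) (hsr : ε * s ^ 2 + r ^ 2 = 1) {w₁ w₂ : ℂ}
    (hw : w₁ * star w₁ + w₂ * star w₂ = 1) :
    (gmat ε s r w₁ w₂)ᴴ * form ε 1 * gmat ε s r w₁ w₂ = form ε 1 := by
  rw [gmat, conjTranspose_mul]
  calc (gzero ε s r)ᴴ * (hmat w₁ w₂)ᴴ * form ε 1 * (hmat w₁ w₂ * gzero ε s r)
      = (gzero ε s r)ᴴ * ((hmat w₁ w₂)ᴴ * form ε 1 * hmat w₁ w₂) * gzero ε s r := by noncomm_ring
    _ = _ := by rw [hmat_form hw, gzero_form hε hsr]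

theorem gmat_det (hsr : ε * s ^ 2 + r ^ 2 = 1) {w₁ w₂ : ℂ}
    (hw : w₁ * star w₁ + w₂ * star w₂ = 1) : (gmat ε s r w₁ w₂).det = 1 := by
  have h1 : (ε : ℂ) * s ^ 2 + r ^ 2 = 1 := by exact_mod_cast hsr
  have hd1 : (hmat w₁ w₂).det = 1 := by
    rw [hmat, Matrix.det_fromBlocks_zero₂₁, Wmat, Matrix.det_fin_two]
    simp at hw ⊢
    linear_combination hw
  have hd2 : (gzero ε s r).det = 1 := by
    have e : Matrix.reindex (finSumFinEquiv (m := 2) (n := 1)) finSumFinEquiv (gzero ε s r) =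
        !![1, 0, 0; 0, (r : ℂ), (s : ℂ); 0, -((ε * s : ℝ) : ℂ), (r : ℂ)] := by
      ext i j
      fin_cases i <;> fin_cases j <;> rfl
    rw [← Matrix.det_reindex_self (finSumFinEquiv (m := 2) (n := 1)), e, Matrix.det_fin_three]
    simp
    linear_combination h1
  rw [gmat, Matrix.det_mul, hd1, hd2, one_mul]

/-- The matrix `g₀⁻¹ diag(1,1,0) g₀`. -/
noncomputable def Qone (ε s r : ℝ) : Mat 1 :=
  Matrix.fromBlocks !![1, 0; 0, (r : ℂ) ^ 2] !![0; (s : ℂ) * r] !![0, (ε : ℂ) * s * r]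
    !![(ε : ℂ) * s ^ 2]

theorem gzero_Q (hε : ε * ε = 1) (hsr : ε * s ^ 2 + r ^ 2 = 1) :
    base 1 * gzero ε s r = gzero ε s r * Qone ε s r := by
  have h1 : (ε : ℂ) * s ^ 2 + r ^ 2 = 1 := by exact_mod_cast hsr
  have h2 : (ε : ℂ) * ε = 1 := by exact_mod_cast hε
  rw [gzero, base, Qone, Matrix.fromBlocks_multiply, Matrix.fromBlocks_multiply]
  congr 1
  · ext i j
    fin_cases i <;> fin_cases j <;>
      simp [Matrix.mul_apply, Fin.sum_univ_two]
    linear_combination (-(r : ℂ)) * h1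
  · ext i j
    fin_cases i <;> fin_cases j <;>
      simp [Matrix.mul_apply, Fin.sum_univ_two]
    linear_combination (-(s : ℂ)) * h1
  · ext i j
    fin_cases i <;> fin_cases j <;>
      simp [Matrix.mul_apply, Fin.sum_univ_two]
    ring
  · ext i j
    fin_cases i <;> fin_cases j <;>
      simp [Matrix.mul_apply, Fin.sum_univ_two]
    ring

theorem gmat_Q (hε : ε * ε = 1) (hsr : ε * s ^ 2 + r ^ 2 = 1) (w₁ w₂ : ℂ) :
    base 1 * gmat ε s r w₁ w₂ = gmat ε s r w₁ w₂ * Qone ε s r := by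
  have h : base 1 * hmat w₁ w₂ = hmat w₁ w₂ * base 1 := by
    simp [base, hmat, Matrix.fromBlocks_multiply]
  rw [gmat, ← mul_assoc, h, mul_assoc, gzero_Q hε hsr, mul_assoc]

end

end Pool.Agent.GrassHyp67
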