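import Pool.Agent.helper67.GrassHyp.Sphere
import Pool.Agent.helper67.GrassHyp.LC

/-!
# Geodesic spheres in the case `m = 1`: the parametrisation
-/

set_option autoImplicit false

open Matrix Set
open scoped Matrix.Norms.Elementwise ContDiff

namespace Pool.Agent.GrassHyp67

section Smooth

variable {E : Type*} [NormedAddCommGroup E] [NormedSpace ℝ E] {m : ℕ} {Ω : Set E}

theorem contDiffOn_mul_mat {a b : E → Mat m} (ha : ContDiffOn ℝ ∞ a Ω)
    (hb : ContDiffOn ℝ ∞ b Ω) : ContDiffOn ℝ ∞ (fun y => a y * b y) Ω := by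
  refine contDiffOn_pi.2 fun i => contDiffOn_pi.2 fun j => ?_
  have h1 : ∀ k, ContDiffOn ℝ ∞ (fun y => a y i k * b y k j) Ω := fun k =>
    ((contDiffOn_pi.1 (contDiffOn_pi.1 ha i)) k).mul ((contDiffOn_pi.1 (contDiffOn_pi.1 hb k)) j)
  have h2 := ContDiffOn.sum (s := Finset.univ) (fun k _ => h1 k)
  simpa [Matrix.mul_apply] using h2

theorem contDiffOn_conj_mat {a : E → Mat m} (ha : ContDiffOn ℝ ∞ a Ω) :
    ContDiffOn ℝ ∞ (fun y => (a y)ᴴ) Ω := by
  refine contDiffOn_pi.2 fun i => contDiffOn_pi.2 fun j => ?_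
  have h1 : ContDiffOn ℝ ∞ (fun y => a y j i) Ω := (contDiffOn_pi.1 (contDiffOn_pi.1 ha j)) i
  exact Complex.conjCLE.contDiff.comp_contDiffOn h1

theorem contDiffOn_add_mat {a b : E → Mat m} (ha : ContDiffOn ℝ ∞ a Ω)
    (hb : ContDiffOn ℝ ∞ b Ω) : ContDiffOn ℝ ∞ (fun y => a y + b y) Ω := ha.add hb

theorem contDiffOn_sub_mat {a b : E → Mat m} (ha : ContDiffOn ℝ ∞ a Ω)
    (hb : ContDiffOn ℝ ∞ b Ω) : ContDiffOn ℝ ∞ (fun y => a y - b y) Ω := ha.sub hb

theorem contDiffOn_smul_mat (β : ℝ) {a : E → Mat m} (ha : ContDiffOn ℝ ∞ a Ω) :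
    ContDiffOn ℝ ∞ (fun y => β • a y) Ω := by
  refine contDiffOn_pi.2 fun i => contDiffOn_pi.2 fun j => ?_
  have h1 : ContDiffOn ℝ ∞ (fun y => a y i j) Ω := (contDiffOn_pi.1 (contDiffOn_pi.1 ha i)) j
  exact h1.const_smul β

end Smooth

/-- The first coordinate. -/
abbrev i0 : Fin (4 * 1 - 1) := ⟨0, by norm_num⟩
/-- The second coordinate. -/
abbrev i1 : Fin (4 * 1 - 1) := ⟨1, by norm_num⟩
/-- The third coordinate. -/
abbrev i2 : Fin (4 * 1 - 1) := ⟨2, by norm_num⟩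

theorem contDiff_coord (i : Fin (4 * 1 - 1)) : ContDiff ℝ ∞ (fun x : Coord 1 => x i) :=
  (EuclideanSpace.proj (𝕜 := ℝ) i).contDiff

/-- The domain of the parametrisation. -/
def Dom : Set (Coord 1) := Metric.ball 0 (1 / 2)

/-- The radicand. -/
def rad (x : Coord 1) : ℝ := 1 - x i0 ^ 2 - x i1 ^ 2 - x i2 ^ 2

theorem rad_pos {x : Coord 1} (hx : x ∈ Dom) : 0 < rad x := by
  have h1 : ‖x‖ < 1 / 2 := by simpa [Dom] using hx
  have h2 : ∀ i, x i ^ 2 ≤ 1 / 4 := by
    intro i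
    have h3 : |x i| ≤ ‖x‖ := by
      have := PiLp.norm_apply_le x i
      simpa using this
    have h4 : |x i| ≤ 1 / 2 := by linarith
    calc x i ^ 2 = |x i| ^ 2 := (sq_abs _).symm
      _ ≤ (1 / 2) ^ 2 := by gcongr
      _ = 1 / 4 := by norm_num
  have := h2 i0
  have := h2 i1
  have := h2 i2
  unfold rad
  linarith

theorem contDiff_rad : ContDiff ℝ ∞ rad := by
  unfold rad
  exact (((contDiff_const.sub ((contDiff_coord i0).pow 2)).sub ((contDiff_coord i1).pow 2)).sub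
    ((contDiff_coord i2).pow 2))

/-- The first component of the point of the sphere. -/
noncomputable def wone (x : Coord 1) : ℂ := Real.sqrt (rad x) + Complex.I * x i0
/-- The second component of the point of the sphere. -/
noncomputable def wtwo (x : Coord 1) : ℂ := x i1 + Complex.I * x i2

theorem contDiffOn_wone : ContDiffOn ℝ ∞ wone Dom := by
  have h1 : ContDiffOn ℝ ∞ (fun x => Real.sqrt (rad x)) Dom := by
    intro x hx
    have h2 : ContDiffAt ℝ ∞ Real.sqrt (rad x) := Real.contDiffAt_sqrt (rad_pos hx).ne'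
    exact (h2.comp x contDiff_rad.contDiffAt).contDiffWithinAt
  have h3 : ContDiffOn ℝ ∞ (fun x => ((Real.sqrt (rad x) : ℝ) : ℂ)) Dom :=
    Complex.ofRealCLM.contDiff.comp_contDiffOn h1
  have h4 : ContDiffOn ℝ ∞ (fun x : Coord 1 => ((x i0 : ℝ) : ℂ)) Dom :=
    Complex.ofRealCLM.contDiff.comp_contDiffOn (contDiff_coord i0).contDiffOn
  exact h3.add (contDiffOn_const.mul h4)

theorem contDiffOn_wtwo : ContDiffOn ℝ ∞ wtwo Dom := by
  have h3 : ContDiffOn ℝ ∞ (fun x : Coord 1 => ((x i1 : ℝ) : ℂ)) Dom :=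
    Complex.ofRealCLM.contDiff.comp_contDiffOn (contDiff_coord i1).contDiffOn
  have h4 : ContDiffOn ℝ ∞ (fun x : Coord 1 => ((x i2 : ℝ) : ℂ)) Dom :=
    Complex.ofRealCLM.contDiff.comp_contDiffOn (contDiff_coord i2).contDiffOn
  exact h3.add (contDiffOn_const.mul h4)

theorem wnorm {x : Coord 1} (hx : x ∈ Dom) :
    wone x * star (wone x) + wtwo x * star (wtwo x) = 1 := by
  have h1 : ((Real.sqrt (rad x) : ℝ) : ℂ) * ((Real.sqrt (rad x) : ℝ) : ℂ) = (rad x : ℂ) := by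
    rw [← Complex.ofReal_mul, Real.mul_self_sqrt (rad_pos hx).le]
  have hI : Complex.I * Complex.I = -1 := Complex.I_mul_I
  have h2 : (rad x : ℂ) = 1 - (x i0 : ℂ) ^ 2 - (x i1 : ℂ) ^ 2 - (x i2 : ℂ) ^ 2 := by
    simp [rad]
  rw [h2] at h1
  simp only [wone, wtwo, Complex.star_def, map_add, map_mul, Complex.conj_ofReal, Complex.conj_I]
  linear_combination h1 - ((x i0 : ℂ) ^ 2 + (x i2 : ℂ) ^ 2) * hI

section Param

variable {ε c s r β : ℝ}

/-- The frame along the hypersurface. -/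
noncomputable def gfun (ε s r : ℝ) (x : Coord 1) : Mat 1 := gmat ε s r (wone x) (wtwo x)

/-- The hypersurface. -/
noncomputable def Ffun (ε s r : ℝ) (x : Coord 1) : Mat 1 :=
  gfun ε s r x * base 1 * ginv ε (gfun ε s r x)

/-- The unit normal. -/
noncomputable def Nfun (ε s r β : ℝ) (x : Coord 1) : Mat 1 :=
  β • (Ffun ε s r x * base 1 + base 1 * Ffun ε s r x -
    2 * (Ffun ε s r x * base 1 * Ffun ε s r x))

theorem contDiffOn_gfun : ContDiffOn ℝ ∞ (gfun ε s r) Dom := by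
  refine contDiffOn_mul_mat ?_ contDiffOn_const
  have h1 := contDiffOn_wone
  have h2 := contDiffOn_wtwo
  have h3 : ContDiffOn ℝ ∞ (fun x => star (wone x)) Dom :=
    Complex.conjCLE.contDiff.comp_contDiffOn h1
  have h4 : ContDiffOn ℝ ∞ (fun x => star (wtwo x)) Dom :=
    Complex.conjCLE.contDiff.comp_contDiffOn h2
  refine contDiffOn_pi.2 fun i => contDiffOn_pi.2 fun j => ?_
  rcases i with i | i <;> rcases j with j | j
  · fin_cases i <;> fin_cases j
    · exact h4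
    · exact h1
    · exact h3.neg
    · exact h2
  · exact contDiffOn_const
  · exact contDiffOn_const
  · exact contDiffOn_const

theorem contDiffOn_ginv {Ω : Set (Coord 1)} {g : Coord 1 → Mat 1} (hg : ContDiffOn ℝ ∞ g Ω) :
    ContDiffOn ℝ ∞ (fun x => ginv ε (g x)) Ω :=
  contDiffOn_mul_mat (contDiffOn_mul_mat contDiffOn_const (contDiffOn_conj_mat hg)) contDiffOn_const

theorem contDiffOn_Ffun : ContDiffOn ℝ ∞ (Ffun ε s r) Dom :=
  contDiffOn_mul_mat (contDiffOn_mul_mat contDiffOn_gfun contDiffOn_const)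
    (contDiffOn_ginv contDiffOn_gfun)

theorem contDiffOn_Nfun : ContDiffOn ℝ ∞ (Nfun ε s r β) Dom := by
  have hF := contDiffOn_Ffun (ε := ε) (s := s) (r := r)
  refine contDiffOn_smul_mat β (contDiffOn_sub_mat (contDiffOn_add_mat ?_ ?_) ?_)
  · exact contDiffOn_mul_mat hF contDiffOn_const
  · exact contDiffOn_mul_mat contDiffOn_const hF
  · exact contDiffOn_mul_mat contDiffOn_const
      (contDiffOn_mul_mat (contDiffOn_mul_mat hF contDiffOn_const) hF)

theorem gfun_form (hε : ε * ε = 1) (hsr : ε * s ^ 2 + r ^ 2 = 1) {x : Coord 1} (hx : x ∈ Dom) :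
    (gfun ε s r x)ᴴ * form ε 1 * gfun ε s r x = form ε 1 := gmat_form hε hsr (wnorm hx)

theorem Ffun_g (hε : ε * ε = 1) (hsr : ε * s ^ 2 + r ^ 2 = 1) {x : Coord 1} (hx : x ∈ Dom) :
    Ffun ε s r x * gfun ε s r x = gfun ε s r x * base 1 := by
  rw [Ffun, mul_assoc, ginv_mul hε (gfun_form hε hsr hx), mul_one]

theorem Ffun_mem (hε : ε * ε = 1) (hsr : ε * s ^ 2 + r ^ 2 = 1) {x : Coord 1} (hx : x ∈ Dom) :
    Ffun ε s r x ∈ Space ε 1 :=
  ⟨gfun ε s r x, gfun_form hε hsr hx, gmat_det hsr (wnorm hx), Ffun_g hε hsr hx⟩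

/-- The lower left block of `F`. -/
theorem Ffun_entries (hε : ε * ε = 1) (hsr : ε * s ^ 2 + r ^ 2 = 1) (x : Coord 1) :
    (Ffun ε s r x).toBlocks₂₁ = !![-((ε * s * r : ℝ) : ℂ) * star (wone x),
      -((ε * s * r : ℝ) : ℂ) * star (wtwo x)] := by
  have h2 : (ε : ℂ) * ε = 1 := by exact_mod_cast hε
  have h1 : (ε : ℂ) * s ^ 2 + r ^ 2 = 1 := by exact_mod_cast hsr
  simp only [Ffun, gfun, gmat, ginv, hmat, gzero, form, base, Matrix.fromBlocks_multiply,
    Matrix.fromBlocks_conjTranspose, Matrix.toBlocks_fromBlocks₂₁]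
  ext i j
  fin_cases i
  fin_cases j
  · simp [Wmat, Matrix.vecMul, dotProduct, Fin.sum_univ_two, conjTranspose_apply]
    ring
  · simp [Wmat, Matrix.vecMul, dotProduct, Fin.sum_univ_two, conjTranspose_apply]
    ring

end Param

end Pool.Agent.GrassHyp67
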